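import Pool.Agent.TWar.Words

/-!
# TWar.AeT: few near coincidences for almost every `t`

PROOF. `count_XT`: by `lemA` for the plain chains (exponent `k`, `q1 + 1` letters) and for the chains of letters
of the polynomial with the values `x^(k-1)` (exponent `k - 1`, `q2` letters). `avgT`: `avg_lin` with `I` of the
order `r (k-1)`. `aeT`: `ae_of_avg` and a countable union.
-/

namespace TWar

open MWg FWar Finset MeasureTheory Filter Topology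

/-- The exponent of the plain part. -/
noncomputable def xb (k q1 : ℕ) : ℝ := (k : ℝ) * (1 - 1 / (k : ℝ)) ^ (q1 + 1)

/-- The exponent of the other part. -/
noncomputable def xg (k q2 : ℕ) : ℝ := ((k - 1 : ℕ) : ℝ) * (1 - 1 / ((k - 1 : ℕ) : ℝ)) ^ q2

theorem one_sub_nonneg {n : ℕ} (hn : 1 ≤ n) : 0 ≤ 1 - 1 / (n : ℝ) := by
  have h : (1 : ℝ) ≤ n := by exact_mod_cast hn
  rw [sub_nonneg, div_le_one (by linarith)]
  exact h

theorem xb_nonneg {k : ℕ} (hk : 3 ≤ k) (q1 : ℕ) : 0 ≤ xb k q1 :=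
  mul_nonneg (Nat.cast_nonneg _) (pow_nonneg (one_sub_nonneg (by omega)) _)

theorem xg_nonneg {k : ℕ} (hk : 3 ≤ k) (q2 : ℕ) : 0 ≤ xg k q2 :=
  mul_nonneg (Nat.cast_nonneg _) (pow_nonneg (one_sub_nonneg (by omega)) _)

theorem count_XT {k : ℕ} (q1 q2 : ℕ) (hk : 3 ≤ k) (f0 : ℕ → ℝ) :
    ∃ C : ℝ, 0 < C ∧ ∀ᶠ r : ℕ in atTop, ∀ y y' x1 x2 : ℝ, 0 ≤ x1 → 0 ≤ x2 →
      cn (XT k q1 q2 r) (fun w => |bT k w - y| ≤ x2 ∧ |aT k f0 w - y'| ≤ x1) ≤
        C * ((XT k q1 q2 r).card : ℝ) / (XX r) ^ (2 * k - 1) *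
          (x1 + (XX r) ^ (xb k q1)) * (x2 + (XX r) ^ (xg k q2)) := by
  obtain ⟨C1, hC1, P1, hP1, hA1⟩ := lemA (by omega : 2 ≤ k) (good_pow (by omega : 1 ≤ k))
    (side_J0 k) (q1 + 1)
  obtain ⟨C2, hC2, P2, hP2, hA2⟩ := lemA (by omega : 2 ≤ k - 1) (good_pow (by omega : 1 ≤ k - 1))
    (side_J0 (k - 1)) q2
  obtain ⟨D1, hD1, hn1⟩ := nxt_iter_pow_le (n := k) (by omega) (q1 + 1)
  obtain ⟨D2, hD2, hn2⟩ := nxt_iter_pow_le (n := k - 1) (by omega) q2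
  refine ⟨C1 * (1 + D1) * (C2 * (1 + D2) * 512 ^ (k - 1)), by positivity, ?_⟩
  filter_upwards [XX_tendsto.eventually_ge_atTop P1, XX_tendsto.eventually_ge_atTop (512 * P2)]
    with r hr1 hr2 y y' x1 x2 hx1 hx2
  have hP0 : 0 < XX r := XX_pos r
  have hP1' : 1 ≤ XX r := XX_ge_one r
  have h512 : P2 ≤ XX r / 512 := by
    rw [le_div_iff₀ (by norm_num)]
    linarith
  have hR1 : 1 ≤ XX r / 512 := hP2.trans h512
  obtain ⟨t1, ht1⟩ : ∃ t1, t1 = ((nxt k)^[q1 + 1] (XX r)) ^ k := ⟨_, rfl⟩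
  obtain ⟨t2, ht2⟩ : ∃ t2, t2 = ((nxt (k - 1))^[q2] (XX r / 512)) ^ (k - 1) := ⟨_, rfl⟩
  have ht10 : 0 ≤ t1 := by
    rw [ht1]
    have := nxt_iter_ge_one (n := k) (by omega) (q1 + 1) hP1'
    positivity
  have ht20 : 0 ≤ t2 := by
    rw [ht2]
    have := nxt_iter_ge_one (n := k - 1) (by omega) q2 hR1
    positivity
  obtain ⟨s1, hs1⟩ : ∃ s1, s1 = (XX r) ^ (xb k q1) := ⟨_, rfl⟩
  obtain ⟨s2, hs2⟩ : ∃ s2, s2 = (XX r) ^ (xg k q2) := ⟨_, rfl⟩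
  have hs10 : 0 ≤ s1 := by rw [hs1]; exact Real.rpow_nonneg hP0.le _
  have hs20 : 0 ≤ s2 := by rw [hs2]; exact Real.rpow_nonneg hP0.le _
  have hts1 : t1 ≤ D1 * s1 := by
    rw [ht1, hs1]
    exact hn1 (XX r) hP1'
  have hts2 : t2 ≤ D2 * s2 := by
    rw [ht2, hs2]
    refine (hn2 (XX r / 512) hR1).trans ?_
    refine mul_le_mul_of_nonneg_left ?_ hD2.le
    apply Real.rpow_le_rpow (by linarith) _ (xg_nonneg hk q2)
    rw [div_le_iff₀ (by norm_num)]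
    linarith
  rw [← hs1, ← hs2]
  -- the plain part
  have hA : ∀ y x : ℝ, 0 ≤ x → cn (mainI (XX r) ×ˢ CT k q1 r) (fun p : ℕ × List (ℕ × ℕ) =>
      |(p.1 : ℝ) ^ k + val (fun x => (x : ℝ) ^ k) (fun _ => 0) p.2 - y| ≤ x) ≤
      C1 * ((mainI (XX r) ×ˢ CT k q1 r).card : ℝ) * ((1 + D1) * (x + s1)) / (XX r) ^ k := by
    intro y x hx
    refine (cn_UC_le k q1 r y x).trans ?_
    have h1 : cnt k J0 (q1 + 1) (XX r)
        (fun w => |val (fun x => (x : ℝ) ^ k) (fun _ => 0) w - y| ≤ x) ≤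
        cnt k J0 (q1 + 1) (XX r)
        (fun w => |val (fun x => (x : ℝ) ^ k) (fun _ => 0) w - y| ≤ x + t1) :=
      cnt_mono fun w _ hw => hw.trans (by linarith)
    refine h1.trans ?_
    refine (hA1 (XX r) hr1 y (x + t1) (by rw [← ht1]; linarith)).trans ?_
    rw [card_UC]
    apply div_le_div_of_nonneg_right _ (by positivity)
    apply mul_le_mul_of_nonneg_left _ (mul_nonneg hC1.le (tot_nonneg _ _ _ _))
    nlinarith
  -- the other part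
  have hB : ∀ y x : ℝ, 0 ≤ x → cn (GT k q2 r) (fun g =>
      |val (fun x => (x : ℝ) ^ (k - 1)) (fun _ => 0) g - y| ≤ x) ≤
      C2 * ((GT k q2 r).card : ℝ) * ((1 + D2) * (x + s2)) * 512 ^ (k - 1) / (XX r) ^ (k - 1) := by
    intro y x hx
    have h1 : cn (GT k q2 r) (fun g =>
        |val (fun x => (x : ℝ) ^ (k - 1)) (fun _ => 0) g - y| ≤ x) ≤
        cnt (k - 1) J0 q2 (XX r / 512)
        (fun w => |val (fun x => (x : ℝ) ^ (k - 1)) (fun _ => 0) w - y| ≤ x + t2) := by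
      have h2 := cnt_mono (n := k - 1) (J := J0) (q := q2) (P := XX r / 512)
        (p := fun w => |val (fun x => (x : ℝ) ^ (k - 1)) (fun _ => 0) w - y| ≤ x)
        (p' := fun w => |val (fun x => (x : ℝ) ^ (k - 1)) (fun _ => 0) w - y| ≤ x + t2)
        (fun w _ hw => hw.trans (by linarith))
      exact h2
    refine h1.trans ?_
    refine (hA2 (XX r / 512) h512 y (x + t2) (by rw [← ht2]; linarith)).trans ?_
    have e1 : tot (k - 1) J0 q2 (XX r / 512) = ((GT k q2 r).card : ℝ) := rfl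
    rw [e1, div_pow, div_div_eq_mul_div]
    apply div_le_div_of_nonneg_right _ (by positivity)
    apply mul_le_mul_of_nonneg_right _ (by positivity)
    apply mul_le_mul_of_nonneg_left _ (mul_nonneg hC2.le (Nat.cast_nonneg _))
    nlinarith
  -- together
  have h1 := cn_assoc (mainI (XX r)) (CT k q1 r) (GT k q2 r)
    (fun w => |bT k w - y| ≤ x2 ∧ |aT k f0 w - y'| ≤ x1)
  have h2 := cn_prod_le (mainI (XX r) ×ˢ CT k q1 r) (GT k q2 r)
    (fun p g => |(p.1 : ℝ) ^ k + val (fun x => (x : ℝ) ^ k) (fun _ => 0) p.2 -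
      (y' - val f0 (fun _ => 0) g)| ≤ x1)
    (fun g => |val (fun x => (x : ℝ) ^ (k - 1)) (fun _ => 0) g - y| ≤ x2)
    (K1 := C1 * ((mainI (XX r) ×ˢ CT k q1 r).card : ℝ) * ((1 + D1) * (x1 + s1)) / (XX r) ^ k)
    (by positivity) (fun g _ => hA _ x1 hx1) (hB y x2 hx2)
  have h3 : cn ((mainI (XX r) ×ˢ CT k q1 r) ×ˢ GT k q2 r)
      (fun p => |bT k (p.1.1, (p.1.2, p.2)) - y| ≤ x2 ∧ |aT k f0 (p.1.1, (p.1.2, p.2)) - y'| ≤ x1) ≤
      cn ((mainI (XX r) ×ˢ CT k q1 r) ×ˢ GT k q2 r)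
      (fun p => |val (fun x => (x : ℝ) ^ (k - 1)) (fun _ => 0) p.2 - y| ≤ x2 ∧
        |(p.1.1 : ℝ) ^ k + val (fun x => (x : ℝ) ^ k) (fun _ => 0) p.1.2 -
      (y' - val f0 (fun _ => 0) p.2)| ≤ x1) := by
    refine cn_mono fun p _ hp => ⟨hp.1, ?_⟩
    refine le_trans (le_of_eq ?_) hp.2
    unfold aT
    congr 1
    ring
  refine (h1.trans (h3.trans h2)).trans (le_of_eq ?_)
  have e2 : ((XT k q1 q2 r).card : ℝ) =
      ((mainI (XX r) ×ˢ CT k q1 r).card : ℝ) * ((GT k q2 r).card : ℝ) := by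
    unfold XT WT
    rw [Finset.card_product, Finset.card_product, Finset.card_product]
    push_cast
    ring
  have e3 : (XX r) ^ (2 * k - 1) = (XX r) ^ (k - 1) * (XX r) ^ k := by
    rw [← pow_add]
    congr 1
    omega
  rw [e2, e3]
  field_simp

private theorem AeT_XX_rpow (r : ℕ) (δ : ℝ) : (XX r) ^ δ = ((2 : ℝ) ^ δ) ^ r := by
  unfold XX
  rw [← Real.rpow_natCast, ← Real.rpow_natCast, ← Real.rpow_mul (by norm_num),
    ← Real.rpow_mul (by norm_num), mul_comm]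

private theorem AeT_lin_le (C : ℝ) (hC : 0 < C) {δ : ℝ} (hδ : 0 < δ) :
    ∀ᶠ r : ℕ in atTop, C * ((r : ℝ) + 1) ≤ (XX r) ^ δ := by
  have hb : (1 : ℝ) < (2 : ℝ) ^ δ := Real.one_lt_rpow (by norm_num) hδ
  have h1 := tendsto_pow_const_div_const_pow_of_one_lt 1 hb
  have h2 : ∀ᶠ n : ℕ in atTop, (n : ℝ) ^ 1 / ((2 : ℝ) ^ δ) ^ n < 1 / (2 * C) :=
    h1.eventually_lt_const (by positivity)
  filter_upwards [h2, eventually_ge_atTop 1] with r hr hr1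
  rw [AeT_XX_rpow]
  have hr2 : (1 : ℝ) ≤ r := by exact_mod_cast hr1
  have hp : 0 < ((2 : ℝ) ^ δ) ^ r := by positivity
  rw [pow_one, div_lt_div_iff₀ hp (by positivity)] at hr
  nlinarith

theorem avgT {k q1 q2 : ℕ} (hk : 3 ≤ k) (hq : xb k q1 + xg k q2 ≤ ((k - 1 : ℕ) : ℝ)) (f0 : ℕ → ℝ)
    {T M : ℝ} (hT : 1 ≤ T) (hM : 1 ≤ M) {δ : ℝ} (hδ : 0 < δ) :
    ∀ᶠ r : ℕ in atTop,
      ∑ i ∈ XT k q1 q2 r ×ˢ XT k q1 q2 r, (volume {t | t ∈ Set.Icc (-T) T ∧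
        |(aT k f0 i.1 + t * bT k i.1) - (aT k f0 i.2 + t * bT k i.2)| ≤ M}).toReal ≤
      (XX r) ^ δ * (((XT k q1 q2 r).card : ℝ) ^ 2 / (XX r) ^ k) := by
  obtain ⟨C, hC, hcount⟩ := count_XT q1 q2 hk f0
  obtain ⟨Cb, hCb, Pb, hPb, hval⟩ := val_bound (n := k - 1) (by omega)
    (good_pow (by omega : 1 ≤ k - 1)) (side_J0 (k - 1)) q2
  obtain ⟨c, hc⟩ := pow_unbounded_of_one_lt (2 * Cb + 1) (show (1 : ℝ) < 2 by norm_num)
  obtain ⟨Z, hZ⟩ : ∃ Z : ℝ, Z = 4 * (T + M) ^ 2 * C * (8 * 2 ^ c + 4 * (k + c) + 2) := ⟨_, rfl⟩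
  have hZ0 : 0 < Z := by rw [hZ]; positivity
  filter_upwards [hcount, AeT_lin_le Z hZ0 hδ, XX_tendsto.eventually_ge_atTop (512 * Pb)]
    with r hr hlin hr2
  have hP0 : 0 < XX r := XX_pos r
  have hP1 : 1 ≤ XX r := XX_ge_one r
  have h512 : Pb ≤ XX r / 512 := by
    rw [le_div_iff₀ (by norm_num)]
    linarith
  obtain ⟨n, hn⟩ : ∃ n : ℝ, n = ((XT k q1 q2 r).card : ℝ) := ⟨_, rfl⟩
  have hn0 : 0 ≤ n := by rw [hn]; exact Nat.cast_nonneg _
  obtain ⟨s1, hs1⟩ : ∃ s1, s1 = (XX r) ^ (xb k q1) := ⟨_, rfl⟩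
  obtain ⟨s2, hs2⟩ : ∃ s2, s2 = (XX r) ^ (xg k q2) := ⟨_, rfl⟩
  have hs10 : 0 ≤ s1 := by rw [hs1]; exact Real.rpow_nonneg hP0.le _
  have hs20 : 0 ≤ s2 := by rw [hs2]; exact Real.rpow_nonneg hP0.le _
  have hb0 := xb_nonneg hk q1
  have hg0 := xg_nonneg hk q2
  have hs1P : s1 ≤ (XX r) ^ (k - 1) := by
    rw [hs1, ← Real.rpow_natCast (XX r) (k - 1)]
    exact Real.rpow_le_rpow_of_exponent_le hP1 (by linarith)
  have hs2P : s2 ≤ (XX r) ^ (k - 1) := by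
    rw [hs2, ← Real.rpow_natCast (XX r) (k - 1)]
    exact Real.rpow_le_rpow_of_exponent_le hP1 (by linarith)
  have hs12 : s1 * s2 ≤ (XX r) ^ (k - 1) := by
    rw [hs1, hs2, ← Real.rpow_natCast (XX r) (k - 1), ← Real.rpow_add hP0]
    exact Real.rpow_le_rpow_of_exponent_le hP1 hq
  rw [← hs1, ← hs2, ← hn] at hr
  have hXk : (XX r) ^ (k - 1) = 2 ^ (r * (k - 1)) := by
    unfold XX
    rw [← pow_mul]
  have key := avg_lin (X := XT k q1 q2 r) (a := aT k f0) (b := bT k) (T := T) (M := M)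
    (K := C * n / (XX r) ^ (2 * k - 1)) (τ1 := s1) (τ2 := s2) (I := r * (k - 1) + c)
    hT hM (by positivity) hs10 hs20 hr
    (by
      intro w hw w' hw'
      have hmem : ∀ w ∈ XT k q1 q2 r, |bT k w| ≤ Cb * (XX r) ^ (k - 1) := by
        intro w hw
        unfold XT WT at hw
        have h1 := (Finset.mem_product.1 (Finset.mem_product.1 hw).2).2
        have h2 := hval (XX r / 512) h512 w.2.2 h1
        refine h2.trans ?_
        refine mul_le_mul_of_nonneg_left ?_ hCb.le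
        apply pow_le_pow_left₀ (by positivity)
        rw [div_le_iff₀ (by norm_num)]
        linarith
      have h1 := hmem w hw
      have h2 := hmem w' hw'
      have h3 := abs_sub (bT k w) (bT k w')
      have h4 : 1 ≤ (XX r) ^ (k - 1) := one_le_pow₀ hP1
      rw [pow_add, ← hXk]
      have h5 : (XX r) ^ (k - 1) * (2 * Cb + 1) ≤ (XX r) ^ (k - 1) * 2 ^ c :=
        mul_le_mul_of_nonneg_left hc.le (by positivity)
      linarith)
  rw [← hn] at key ⊢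
  refine key.trans ?_
  have hr0 : (0 : ℝ) ≤ r := Nat.cast_nonneg r
  have hc0 : (0 : ℝ) ≤ c := Nat.cast_nonneg c
  have hk1 : ((k - 1 : ℕ) : ℝ) = (k : ℝ) - 1 := by
    rw [Nat.cast_sub (by omega)]
    norm_num
  have hkR : (3 : ℝ) ≤ k := by exact_mod_cast hk
  have hI : ((r * (k - 1) + c : ℕ) : ℝ) + 1 ≤ (k + c) * ((r : ℝ) + 1) := by
    push_cast
    rw [hk1]
    nlinarith [mul_nonneg hr0 hc0]
  have hbr : 8 * (2 : ℝ) ^ (r * (k - 1) + c) +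
      2 * (((r * (k - 1) + c : ℕ) : ℝ) + 1) * (s1 + s2) + 2 * s1 * s2 ≤
      (8 * 2 ^ c + 4 * (k + c) + 2) * ((r : ℝ) + 1) * (XX r) ^ (k - 1) := by
    obtain ⟨Q, hQ⟩ : ∃ Q, Q = (XX r) ^ (k - 1) := ⟨_, rfl⟩
    have hQ0 : 0 ≤ Q := by rw [hQ]; positivity
    rw [pow_add, ← hXk, ← hQ]
    rw [← hQ] at hs1P hs2P hs12
    have e1 : 2 * (((r * (k - 1) + c : ℕ) : ℝ) + 1) * (s1 + s2) ≤
        2 * ((k + c) * ((r : ℝ) + 1)) * (2 * Q) := by
      apply mul_le_mul _ (by linarith) (by linarith) (by positivity)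
      linarith
    have e2 : 8 * (Q * 2 ^ c) ≤ 8 * 2 ^ c * ((r : ℝ) + 1) * Q := by
      have : 0 ≤ 8 * (Q * 2 ^ c) * r := by positivity
      nlinarith
    have e3 : 2 * s1 * s2 ≤ 2 * ((r : ℝ) + 1) * Q := by
      have : 0 ≤ r * Q := by positivity
      nlinarith
    nlinarith
  have hc2 : 0 ≤ 4 * (T + M) ^ 2 * n * (C * n / (XX r) ^ (2 * k - 1)) := by positivity
  refine (mul_le_mul_of_nonneg_left hbr hc2).trans ?_
  have e3 : (XX r) ^ (2 * k - 1) = (XX r) ^ (k - 1) * (XX r) ^ k := by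
    rw [← pow_add]
    congr 1
    omega
  have e4 : 4 * (T + M) ^ 2 * n * (C * n / (XX r) ^ (2 * k - 1)) *
      ((8 * 2 ^ c + 4 * (k + c) + 2) * ((r : ℝ) + 1) * (XX r) ^ (k - 1)) =
      Z * ((r : ℝ) + 1) * (n ^ 2 / (XX r) ^ k) := by
    rw [e3, hZ]
    field_simp
  rw [e4]
  exact mul_le_mul_of_nonneg_right hlin (by positivity)

theorem tot_ev {k : ℕ} (q1 q2 : ℕ) (hk : 3 ≤ k) : ∀ᶠ r : ℕ in atTop,
    0 < ((mainI (XX r)).card : ℝ) ∧ 0 < ((CT k q1 r).card : ℝ) ∧ 0 < ((GT k q2 r).card : ℝ) := by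
  obtain ⟨P1, h1⟩ := tot_pos (n := k) (J := J0) (by omega) ⟨0, fun P _ => ⟨0, by simp [J0]⟩⟩ q1
  obtain ⟨P2, h2⟩ := tot_pos (n := k - 1) (J := J0) (by omega) ⟨0, fun P _ => ⟨0, by simp [J0]⟩⟩ q2
  filter_upwards [((nxt_tendsto (by omega : 2 ≤ k)).comp XX_tendsto).eventually_ge_atTop P1,
    XX_tendsto.eventually_ge_atTop (512 * P2)] with r hr1 hr2
  refine ⟨?_, h1 _ hr1, h2 _ ?_⟩
  · have := card_mainI_ge (XX_ge_one r)
    have := XX_pos r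
    linarith
  · rw [le_div_iff₀ (by norm_num)]
    linarith

theorem aeT {k q1 q2 : ℕ} (hk : 3 ≤ k) (hq : xb k q1 + xg k q2 ≤ ((k - 1 : ℕ) : ℝ)) (f0 : ℕ → ℝ)
    {ε : ℝ} (hε : 0 < ε) :
    ∀ᵐ t : ℝ, ∀ M : ℝ, ∀ᶠ r : ℕ in atTop,
      pairs (XT k q1 q2 r) (fun p =>
        |(aT k f0 p.1 + t * bT k p.1) - (aT k f0 p.2 + t * bT k p.2)| ≤ M) ≤
      (XX r) ^ ε * ((XT k q1 q2 r).card : ℝ) ^ 2 / (XX r) ^ k := by
  have h1 : ∀ n : ℕ, ∀ᵐ t : ℝ, t ∈ Set.Icc (-((n : ℝ) + 1)) ((n : ℝ) + 1) → ∀ᶠ r : ℕ in atTop,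
      cn (XT k q1 q2 r ×ˢ XT k q1 q2 r) (fun i =>
        |(aT k f0 i.1 + t * bT k i.1) - (aT k f0 i.2 + t * bT k i.2)| ≤ (n : ℝ) + 1) ≤
      (XX r) ^ (2 * (ε / 2)) * (((XT k q1 q2 r).card : ℝ) ^ 2 / (XX r) ^ k) := by
    intro n
    have hn : (0 : ℝ) ≤ n := Nat.cast_nonneg n
    refine ae_of_avg (S := fun r => XT k q1 q2 r ×ˢ XT k q1 q2 r)
      (G := fun i t => (aT k f0 i.1 + t * bT k i.1) - (aT k f0 i.2 + t * bT k i.2))
      (by linarith) ?_ ?_ (avgT hk hq f0 (by linarith) (by linarith) (by linarith))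
    · filter_upwards [tot_ev q1 q2 hk] with r hr
      have hP0 : 0 < XX r := XX_pos r
      have : 0 < ((XT k q1 q2 r).card : ℝ) := by
        unfold XT WT
        rw [Finset.card_product, Finset.card_product]
        push_cast
        exact mul_pos hr.1 (mul_pos hr.2.1 hr.2.2)
      positivity
    · intro r i _
      exact Continuous.continuousOn (by fun_prop)
  rw [← ae_all_iff] at h1
  filter_upwards [h1] with t ht M
  obtain ⟨n, hn⟩ := exists_nat_ge (max |t| M)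
  have hn1 : |t| ≤ n := (le_max_left _ _).trans hn
  have hn2 : M ≤ n := (le_max_right _ _).trans hn
  have h3 := abs_le.1 hn1
  have h4 := ht n ⟨by linarith [h3.1], by linarith [h3.2]⟩
  filter_upwards [h4] with r hr
  rw [pairs_eq_cn]
  refine le_trans (cn_mono fun w _ hw => hw.trans (by linarith)) (hr.trans (le_of_eq ?_))
  rw [show 2 * (ε / 2) = ε by ring, ← mul_div_assoc]

end TWar
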