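import Pool.Agent.FWar.Core1
import Pool.Agent.FWar.LetV
import Pool.Agent.FWar.Asm1
import Pool.Agent.TWar.MainT

/-!
# TWar.Asm: the abstract theorem on sums of integer parts, words of a general type

A copy of `Pool/Agent/FWar/Asm1.lean`: the first letter has the value `F u`, the last letter `z` the value `f z`,
and the words `w : ω` have a real value `rv w` and an integer value `sv w`.
-/

namespace TWar

open MWg FWar Finset Filter Topology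
open Pool.PolyMax (e)

theorem floor_basisT_aux {κ α σ c : ℝ} {F f : ℕ → ℝ} {d : ℕ} {ω : Type} {W : ℕ → Finset ω}
    {sv : ω → ℤ} {rv : ω → ℝ}
    (hκ : 5 / 4 ≤ κ) (hσ : 0 < σ) (hc0 : 0 < c)
    (hU : ∀ᶠ r : ℕ in atTop, ∀ θ : ℝ, (XX r) ^ (1 / 4 - κ) ≤ |θ| → |θ| ≤ (XX r) ^ σ →
      ‖∑ z ∈ J1 (XX r), e (θ * f z)‖ ≤ (XX r) ^ (1 - σ))
    (hv : ∀ r, ∀ w ∈ W r, (sv w : ℝ) ≤ rv w ∧ rv w - d ≤ (sv w : ℝ))
    (hne : ∀ᶠ r : ℕ in atTop, (W r).Nonempty)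
    (hN : ∀ᶠ r : ℕ in atTop, pairs (mainI (XX r) ×ˢ W r) (fun p =>
        |(F p.1.1 + rv p.1.2) - (F p.2.1 + rv p.2.2)| ≤ (d : ℝ) + 1) ≤
      (XX r) ^ (σ / 8) * ((mainI (XX r) ×ˢ W r).card : ℝ) ^ 2 / (XX r) ^ κ)
    (hmain : ∀ᶠ r : ℕ in atTop, ∀ om : ℕ → ℝ, (∀ z, 0 ≤ om z) → ∀ H : ℕ,
      (XX r) ^ (κ - 3 / 4) ≤ (H : ℝ) → (H : ℝ) ≤ (XX r) ^ (κ - 1 / 2) → ∀ N : ℤ,
      α * 4 ^ κ * (XX r) ^ κ ≤ (N : ℝ) → (N : ℝ) ≤ α * 8 ^ κ * (XX r) ^ κ →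
      c * (2 * H + 1) * ((mainI (XX r) ×ˢ W r).card : ℝ) ^ 2 * (∑ z ∈ J1 (XX r), om z) /
        (XX r) ^ κ ≤
      ∑ z ∈ J1 (XX r), om z *
        pairs (mainI (XX r) ×ˢ W r) (fun p =>
          |(⌊F p.1.1⌋ + sv p.1.2) + (⌊F p.2.1⌋ + sv p.2.2) + ⌊f z⌋ - N| ≤ (H : ℤ))) :
    ∀ᶠ r : ℕ in atTop, ∀ N : ℤ, α * 4 ^ κ * (XX r) ^ κ ≤ (N : ℝ) →
      (N : ℝ) ≤ α * 8 ^ κ * (XX r) ^ κ →
      ∃ u ∈ mainI (XX r), ∃ w ∈ W r, ∃ u' ∈ mainI (XX r), ∃ w' ∈ W r, ∃ z ∈ J1 (XX r),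
        (⌊F u⌋ + sv w) + (⌊F u'⌋ + sv w') + ⌊f z⌋ = N := by
  have hE1 := eventually_rpow_le (C := 2) (A := 1 / 4 - κ) (B := 0) (by linarith)
  have hE2 := eventually_rpow_le (C := 64) (A := 1 - σ / 2) (B := 1) (by linarith)
  have hE3 := eventually_rpow_le (C := 2) (A := σ / 2) (B := σ) (by linarith)
  have hE4 := XX_tendsto.eventually_ge_atTop 16
  have hE5 := eventually_rpow_le (C := 2) (A := κ - 3 / 4) (B := κ - 5 / 8) (by linarith)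
  have hE7 := eventually_rpow_le (C := 8 * Real.pi / c) (A := -(1 / 8)) (B := 0) (by norm_num)
  have hE8 := eventually_rpow_le (C := 768 / c) (A := -(σ / 8)) (B := 0) (by linarith)
  filter_upwards [hE1, hE2, hE3, hE4, hE5, hE7, hE8, hU, hne, hN, hmain] with r h1 h2 h3 h4 h5 h7
    h8 hU hne hN hmain
  intro N hNl hNu
  have hP1 : 1 ≤ XX r := XX_ge_one r
  have hP0 : 0 < XX r := XX_pos r
  set P : ℝ := XX r with hPdef
  rw [Real.rpow_zero] at h1 h7 h8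
  rw [Real.rpow_one] at h2
  -- the parameter K
  set K : ℕ := ⌈P ^ (σ / 2)⌉₊ with hKdef
  have hPs1 : 1 ≤ P ^ (σ / 2) := Real.one_le_rpow hP1 (by linarith)
  have hKlo : P ^ (σ / 2) ≤ (K : ℝ) := Nat.le_ceil _
  have hKhi : (K : ℝ) ≤ 2 * P ^ (σ / 2) := by
    have := (Nat.ceil_lt_add_one (show (0 : ℝ) ≤ P ^ (σ / 2) by linarith)).le
    linarith
  have hKs : (K : ℝ) ≤ P ^ σ := hKhi.trans h3
  have hK1 : 1 ≤ K := by
    have : (1 : ℝ) ≤ (K : ℝ) := hPs1.trans hKlo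
    exact_mod_cast this
  have hΘ : P ^ (1 / 4 - κ) ≤ 1 / 2 := by linarith
  have hU0 : 0 ≤ P ^ (1 - σ) := Real.rpow_nonneg hP0.le _
  obtain ⟨om, hom, hom1, hom2⟩ := letV (f := f) (Z := J1 P) (K := K) (U := P ^ (1 - σ))
    (Θ := P ^ (1 / 4 - κ)) hK1 hU0 hΘ (fun θ ha hb => hU θ ha (hb.trans hKs))
  set Om : ℝ := ∑ z ∈ J1 P, om z with hOmdef
  have hKU : (K : ℝ) * P ^ (1 - σ) ≤ 2 * P ^ (1 - σ / 2) := by
    calc (K : ℝ) * P ^ (1 - σ) ≤ (2 * P ^ (σ / 2)) * P ^ (1 - σ) :=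
          mul_le_mul_of_nonneg_right hKhi hU0
      _ = 2 * P ^ (1 - σ / 2) := by
          rw [mul_assoc, ← Real.rpow_add hP0]
          congr 2
          ring
  have hZ1 := card_J1_ge h4
  have hZ2 := card_J1_le h4
  have habs := abs_le.1 hom1
  have hOm1 : P / 32 ≤ Om := by linarith [habs.1]
  have hOm2 : Om ≤ P / 2 := by linarith [habs.2]
  have hOm0 : 0 < Om := by linarith
  -- the bound on the weighted sum
  have hsq : 2 * Real.sqrt (Om * ((J1 P).card : ℝ) / K) ≤ P ^ (1 - σ / 4) := by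
    have e1 : Om * ((J1 P).card : ℝ) / K ≤ (P ^ (1 - σ / 4) / 2) ^ 2 := by
      have e2 : (P ^ (1 - σ / 4) / 2) ^ 2 = P ^ (2 - σ / 2) / 4 := by
        rw [div_pow, ← Real.rpow_natCast (P ^ (1 - σ / 4)) 2, ← Real.rpow_mul hP0.le]
        norm_num
        congr 1
        ring
      have e3 : Om * ((J1 P).card : ℝ) ≤ P ^ 2 / 8 := by
        calc Om * ((J1 P).card : ℝ) ≤ (P / 2) * (P / 4) :=
              mul_le_mul hOm2 hZ2 (Nat.cast_nonneg _) (by positivity)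
          _ = P ^ 2 / 8 := by ring
      have hK0 : (0 : ℝ) < K := by exact_mod_cast hK1
      rw [e2, div_le_iff₀ hK0]
      have e4 : P ^ (2 - σ / 2) * P ^ (σ / 2) = P ^ 2 := by
        rw [← Real.rpow_add hP0, ← Real.rpow_natCast P 2]
        congr 1
        push_cast
        ring
      have e5 : P ^ (2 - σ / 2) * P ^ (σ / 2) ≤ P ^ (2 - σ / 2) * K :=
        mul_le_mul_of_nonneg_left hKlo (Real.rpow_nonneg hP0.le _)
      have e6 : 0 ≤ P ^ 2 := by positivity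
      nlinarith [e3, e4, e5, e6]
    have e7 : Real.sqrt (Om * ((J1 P).card : ℝ) / K) ≤ P ^ (1 - σ / 4) / 2 :=
      Real.sqrt_le_iff.2 ⟨by positivity, e1⟩
    linarith
  have hb : ∀ θ : ℝ, P ^ (1 / 4 - κ) ≤ |θ| → |θ| ≤ 1 / 2 →
      ‖∑ z ∈ J1 P, (om z : ℂ) * e (θ * ((⌊f z⌋ : ℤ) : ℝ))‖ ≤ 96 * P ^ (-(σ / 4)) * Om := by
    intro θ ht1 ht2
    refine (hom2 θ ht1 ht2).trans ?_
    have g1 : P ^ (1 - σ / 2) ≤ P ^ (1 - σ / 4) :=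
      Real.rpow_le_rpow_of_exponent_le hP1 (by linarith)
    have g2 : P ^ (-(σ / 4)) * P = P ^ (1 - σ / 4) := by
      nth_rewrite 2 [← Real.rpow_one P]
      rw [← Real.rpow_add hP0]
      congr 1
      ring
    have g3 : 0 ≤ P ^ (-(σ / 4)) := Real.rpow_nonneg hP0.le _
    have g4 : P ^ (-(σ / 4)) * (P / 32) ≤ P ^ (-(σ / 4)) * Om :=
      mul_le_mul_of_nonneg_left hOm1 g3
    have g5 : P ^ (-(σ / 4)) * (P / 32) = P ^ (1 - σ / 4) / 32 := by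
      rw [← g2]
      ring
    linarith
  -- the parameter H
  set H : ℕ := ⌊P ^ (κ - 5 / 8)⌋₊ with hHdef
  have hH1 : (H : ℝ) ≤ P ^ (κ - 5 / 8) := Nat.floor_le (Real.rpow_nonneg hP0.le _)
  have hH2 : P ^ (κ - 3 / 4) ≤ (H : ℝ) := by
    have := (Nat.lt_floor_add_one (P ^ (κ - 5 / 8))).le
    have h6 : 1 ≤ P ^ (κ - 3 / 4) := Real.one_le_rpow hP1 (by linarith)
    linarith
  have hH3 : (H : ℝ) ≤ P ^ (κ - 1 / 2) :=
    hH1.trans (Real.rpow_le_rpow_of_exponent_le hP1 (by linarith))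
  have hmain' := hmain om hom H hH2 hH3 N hNl hNu
  have hQ : 0 < P ^ κ := Real.rpow_pos_of_pos hP0 _
  -- ha
  have ha : pairs (mainI P ×ˢ W r) (fun p => (⌊F p.1.1⌋ + sv p.1.2) =
      (⌊F p.2.1⌋ + sv p.2.2)) ≤
      P ^ (σ / 8) * ((mainI P ×ˢ W r).card : ℝ) ^ 2 / P ^ κ := by
    refine (pairs_mono _ ?_).trans hN
    rintro ⟨u, w⟩ hw ⟨u', w'⟩ hw' hs
    simp only at hs ⊢
    have b1 := hv r w (Finset.mem_product.1 hw).2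
    have b2 := hv r w' (Finset.mem_product.1 hw').2
    have f1 := Int.floor_le (F u)
    have f2 := (Int.lt_floor_add_one (F u)).le
    have f3 := Int.floor_le (F u')
    have f4 := (Int.lt_floor_add_one (F u')).le
    have hs' : (⌊F u⌋ : ℝ) + (sv w : ℝ) = (⌊F u'⌋ : ℝ) + (sv w' : ℝ) := by exact_mod_cast hs
    rw [abs_le]
    constructor
    · linarith [b1.1, b1.2, b2.1, b2.2]
    · linarith [b1.1, b1.2, b2.1, b2.2]
  -- hd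
  have hΘ0 : 0 ≤ P ^ (1 / 4 - κ) := Real.rpow_nonneg hP0.le _
  have hβ0 : 0 ≤ 96 * P ^ (-(σ / 4)) := by positivity
  have hd : 2 * Real.pi * H * (P ^ (1 / 4 - κ)) ^ 2 +
      2 * (96 * P ^ (-(σ / 4))) * P ^ (σ / 8) / P ^ κ < c / P ^ κ := by
    have k1 : (P ^ (1 / 4 - κ)) ^ 2 = P ^ (1 / 2 - 2 * κ) := by
      rw [← Real.rpow_natCast (P ^ (1 / 4 - κ)) 2, ← Real.rpow_mul hP0.le]
      congr 1
      push_cast
      ring
    have k2 : P ^ (-(σ / 4)) * P ^ (σ / 8) = P ^ (-(σ / 8)) := by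
      rw [← Real.rpow_add hP0]
      congr 1
      ring
    have k3 : 2 * Real.pi * H * (P ^ (1 / 4 - κ)) ^ 2 * P ^ κ ≤ 2 * Real.pi * P ^ (-(1 / 8 : ℝ)) := by
      rw [k1]
      have k4 : P ^ (κ - 5 / 8) * P ^ (1 / 2 - 2 * κ) * P ^ κ = P ^ (-(1 / 8 : ℝ)) := by
        rw [← Real.rpow_add hP0, ← Real.rpow_add hP0]
        congr 1
        ring
      have k5 : (H : ℝ) * P ^ (1 / 2 - 2 * κ) * P ^ κ ≤
          P ^ (κ - 5 / 8) * P ^ (1 / 2 - 2 * κ) * P ^ κ := by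
        gcongr
      have hpi := Real.pi_pos
      calc 2 * Real.pi * H * P ^ (1 / 2 - 2 * κ) * P ^ κ
          = 2 * Real.pi * ((H : ℝ) * P ^ (1 / 2 - 2 * κ) * P ^ κ) := by ring
        _ ≤ 2 * Real.pi * (P ^ (κ - 5 / 8) * P ^ (1 / 2 - 2 * κ) * P ^ κ) :=
            mul_le_mul_of_nonneg_left k5 (by positivity)
        _ = 2 * Real.pi * P ^ (-(1 / 8 : ℝ)) := by rw [k4]
    have k6 : 2 * Real.pi * P ^ (-(1 / 8 : ℝ)) ≤ c / 4 := by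
      rw [div_mul_eq_mul_div, div_le_iff₀ hc0] at h7
      linarith
    have k7 : 192 * P ^ (-(σ / 8)) ≤ c / 4 := by
      rw [div_mul_eq_mul_div, div_le_iff₀ hc0] at h8
      linarith
    have k8 : 2 * (96 * P ^ (-(σ / 4))) * P ^ (σ / 8) = 192 * P ^ (-(σ / 8)) := by
      rw [← k2]
      ring
    rw [k8, lt_div_iff₀ hQ, add_mul, div_mul_cancel₀ _ hQ.ne']
    linarith
  have hWne : (mainI P ×ˢ W r).Nonempty := by
    refine Finset.Nonempty.product ?_ hne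
    rw [← Finset.card_pos]
    have := card_mainI_ge hP1
    have h9 : (0 : ℝ) < ((mainI P).card : ℝ) := by linarith
    exact_mod_cast h9
  obtain ⟨w, hw, w', hw', z, hz, heq⟩ := core1 (W := mainI P ×ˢ W r)
    (s := fun p => ⌊F p.1⌋ + sv p.2) (Z := J1 P) (v := fun z => ⌊f z⌋) (om := om)
    (Q := P ^ κ) (A := P ^ (σ / 8)) (c := c) (β := 96 * P ^ (-(σ / 4))) (Θ := P ^ (1 / 4 - κ))
    (H := H) (N := N) hQ (fun z _ => hom z) hOm0 hWne hΘ0 hβ0 ha hb hmain' hd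
  obtain ⟨u, w⟩ := w
  obtain ⟨u', w'⟩ := w'
  rw [Finset.mem_product] at hw hw'
  exact ⟨u, hw.1, w, hw.2, u', hw'.1, w', hw'.2, z, hz, heq⟩

theorem floor_basisT {κ α σ : ℝ} {F f : ℕ → ℝ} {d : ℕ} {ω : Type} {W : ℕ → Finset ω}
    {sv : ω → ℤ} {rv : ω → ℝ} (hκ : 5 / 4 ≤ κ)
    (hσ : 0 < σ) (hF : Grow κ α F) (hf : Grow κ α f)
    (hU : ∀ᶠ r : ℕ in atTop, ∀ θ : ℝ, (XX r) ^ (1 / 4 - κ) ≤ |θ| → |θ| ≤ (XX r) ^ σ →
      ‖∑ z ∈ J1 (XX r), e (θ * f z)‖ ≤ (XX r) ^ (1 - σ))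
    (hv : ∀ r, ∀ w ∈ W r, (sv w : ℝ) ≤ rv w ∧ rv w - d ≤ (sv w : ℝ))
    (hne : ∀ᶠ r : ℕ in atTop, (W r).Nonempty)
    (hS : ∀ᶠ r : ℕ in atTop, ∀ w ∈ W r, |rv w| ≤ α * (XX r) ^ κ / 4)
    (hN : ∀ᶠ r : ℕ in atTop, pairs (mainI (XX r) ×ˢ W r) (fun p =>
        |(F p.1.1 + rv p.1.2) - (F p.2.1 + rv p.2.2)| ≤ (d : ℝ) + 1) ≤
      (XX r) ^ (σ / 8) * ((mainI (XX r) ×ˢ W r).card : ℝ) ^ 2 / (XX r) ^ κ) :
    ∃ N0 : ℤ, ∀ N : ℤ, N0 ≤ N → ∃ r : ℕ, ∃ u ∈ mainI (XX r), ∃ w ∈ W r,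
      ∃ u' ∈ mainI (XX r), ∃ w' ∈ W r, ∃ z ∈ J1 (XX r),
        (⌊F u⌋ + sv w) + (⌊F u'⌋ + sv w') + ⌊f z⌋ = N := by
  obtain ⟨c, hc0, hmain⟩ := main_termT hκ hF hf hv hS
  have hev := floor_basisT_aux hκ hσ hc0 hU hv hne hN hmain
  obtain ⟨R, hR⟩ := Filter.eventually_atTop.1 hev
  have hα := hf.pos
  have h4 : (0 : ℝ) < 4 ^ κ := Real.rpow_pos_of_pos (by norm_num) _
  refine ⟨⌈α * 4 ^ κ * (XX R) ^ κ⌉, fun N hN0 => ?_⟩
  have hN1 : α * 4 ^ κ * (XX R) ^ κ ≤ (N : ℝ) := Int.ceil_le.1 hN0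
  have hbd : ∃ M : ℕ, ∀ r, M ≤ r → ¬ (α * 4 ^ κ * (XX r) ^ κ ≤ (N : ℝ)) := by
    have ht : Tendsto (fun r : ℕ => α * 4 ^ κ * (XX r) ^ κ) atTop atTop :=
      Tendsto.const_mul_atTop (by positivity)
        ((tendsto_rpow_atTop (by linarith : (0 : ℝ) < κ)).comp XX_tendsto)
    obtain ⟨M, hM⟩ := Filter.eventually_atTop.1 (ht.eventually_gt_atTop (N : ℝ))
    exact ⟨M, fun r hr => not_le.2 (hM r hr)⟩
  obtain ⟨r, hRr, hr1, hr2⟩ := exists_last1 (p := fun r => α * 4 ^ κ * (XX r) ^ κ ≤ (N : ℝ))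
    hN1 hbd
  refine ⟨r, hR r hRr N hr1 ?_⟩
  have h5 := (not_le.1 hr2).le
  refine h5.trans (le_of_eq ?_)
  have e1 : XX (r + 1) = 2 * XX r := by
    unfold XX
    rw [pow_succ]
    ring
  have e2 : (8 : ℝ) ^ κ = 4 ^ κ * 2 ^ κ := by
    rw [← Real.mul_rpow (by norm_num) (by norm_num)]
    norm_num
  rw [e1, Real.mul_rpow (by norm_num) (XX_pos r).le, e2]
  ring

end TWar
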