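import Pool.Agent.FWar.MixB
import Pool.Agent.FWar.AeC

/-!
# TWar.Avg: counting in products; averages over one linear parameter

PROOF of `avg_lin`. For a pair `(w, w')` put `D = |b w - b w'|`. The measure of the set of the `t ∈ [-T, T]`
with `|Δa + t Δb| ≤ M` is at most `4 (T + M)/(D + 1)`, and `0` unless `|Δa| ≤ (T + M)(D + 1)`. Sort the pairs
by `2^j ≤ D + 1 < 2^(j+1)`.
-/

namespace TWar

open MWg FWar Finset MeasureTheory Filter Topology

theorem cn_prod_le {α β : Type*} (C : Finset α) (G : Finset β) (R : α → β → Prop) (S : β → Prop)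
    {K1 K2 : ℝ} (hK1 : 0 ≤ K1) (h1 : ∀ g ∈ G, cn C (fun c => R c g) ≤ K1) (h2 : cn G S ≤ K2) :
    cn (C ×ˢ G) (fun p => S p.2 ∧ R p.1 p.2) ≤ K2 * K1 := by
  classical
  have e : cn (C ×ˢ G) (fun p => S p.2 ∧ R p.1 p.2) =
      ∑ g ∈ G.filter S, cn C (fun c => R c g) := by
    unfold cn
    rw [Finset.card_filter]
    push_cast
    rw [Finset.sum_product_right, Finset.sum_filter]
    refine Finset.sum_congr rfl fun g _ => ?_
    by_cases hg : S g
    · rw [if_pos hg, Finset.card_filter]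
      push_cast
      refine Finset.sum_congr rfl fun c _ => ?_
      by_cases hc : R c g
      · rw [if_pos ⟨hg, hc⟩, if_pos hc]
      · rw [if_neg (fun h => hc h.2), if_neg hc]
    · rw [if_neg hg]
      refine Finset.sum_eq_zero fun c _ => ?_
      rw [if_neg (fun h => hg h.1)]
  rw [e]
  have h3 : ∑ g ∈ G.filter S, cn C (fun c => R c g) ≤ ∑ _g ∈ G.filter S, K1 :=
    Finset.sum_le_sum fun g hg => h1 g (Finset.mem_filter.1 hg).1
  refine h3.trans ?_
  rw [Finset.sum_const, nsmul_eq_mul]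
  refine mul_le_mul_of_nonneg_right ?_ hK1
  unfold cn at h2
  convert h2

theorem vol_lin {α β T M : ℝ} (hT : 0 < T) (hM : 0 < M) :
    (volume {t : ℝ | t ∈ Set.Icc (-T) T ∧ |α + t * β| ≤ M}).toReal ≤
      4 * (T + M) / (|β| + 1) := by
  have hfin : volume {t : ℝ | t ∈ Set.Icc (-T) T ∧ |α + t * β| ≤ M} ≤
      ENNReal.ofReal (2 * T) := by
    refine (measure_mono fun t ht => ht.1).trans ?_
    rw [Real.volume_Icc]
    apply ENNReal.ofReal_le_ofReal
    linarith
  have h1 : (volume {t : ℝ | t ∈ Set.Icc (-T) T ∧ |α + t * β| ≤ M}).toReal ≤ 2 * T := by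
    have := ENNReal.toReal_mono ENNReal.ofReal_ne_top hfin
    rwa [ENNReal.toReal_ofReal (by linarith)] at this
  have hβ := abs_nonneg β
  rcases le_total |β| 1 with h | h
  · refine h1.trans ?_
    rw [le_div_iff₀ (by linarith)]
    nlinarith
  · have hβ0 : 0 < |β| := by linarith
    have hβ1 : β ≠ 0 := abs_pos.1 hβ0
    have h2 : {t : ℝ | t ∈ Set.Icc (-T) T ∧ |α + t * β| ≤ M} ⊆
        Metric.closedBall (-(α / β)) (M / |β|) := by
      intro t ht
      rw [Metric.mem_closedBall, Real.dist_eq, le_div_iff₀ hβ0, ← abs_mul]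
      have e1 : (t - -(α / β)) * β = α + t * β := by
        field_simp
        ring
      rw [e1]
      exact ht.2
    have h3 := measure_mono (μ := volume) h2
    rw [Real.volume_closedBall] at h3
    have h4 := ENNReal.toReal_mono ENNReal.ofReal_ne_top h3
    rw [ENNReal.toReal_ofReal (by positivity)] at h4
    refine h4.trans ?_
    rw [← mul_div_assoc, div_le_div_iff₀ hβ0 (by linarith)]
    nlinarith

theorem avg_lin {ξ : Type*} {X : Finset ξ} {a b : ξ → ℝ} {T M K τ1 τ2 : ℝ} {I : ℕ}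
    (hT : 1 ≤ T) (hM : 1 ≤ M) (hK : 0 ≤ K) (hτ1 : 0 ≤ τ1) (hτ2 : 0 ≤ τ2)
    (hcount : ∀ y y' x1 x2 : ℝ, 0 ≤ x1 → 0 ≤ x2 →
      cn X (fun w => |b w - y| ≤ x2 ∧ |a w - y'| ≤ x1) ≤ K * (x1 + τ1) * (x2 + τ2))
    (hI : ∀ w ∈ X, ∀ w' ∈ X, |b w - b w'| + 1 ≤ 2 ^ I) :
    ∑ i ∈ X ×ˢ X, (volume {t | t ∈ Set.Icc (-T) T ∧
      |(a i.1 + t * b i.1) - (a i.2 + t * b i.2)| ≤ M}).toReal ≤
      4 * (T + M) ^ 2 * (X.card : ℝ) * K *
        (8 * 2 ^ I + 2 * (I + 1) * (τ1 + τ2) + 2 * τ1 * τ2) := by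
  classical
  have hTM : 1 ≤ T + M := by linarith
  -- the bound for each pair
  have hpt : ∀ i ∈ X ×ˢ X, (volume {t | t ∈ Set.Icc (-T) T ∧
      |(a i.1 + t * b i.1) - (a i.2 + t * b i.2)| ≤ M}).toReal ≤
      ∑ j ∈ range (I + 1), 4 * (T + M) * (1 / 2) ^ j *
        (if |b i.1 - b i.2| ≤ 2 ^ (j + 1) ∧ |a i.1 - a i.2| ≤ (T + M) * 2 ^ (j + 1)
          then (1 : ℝ) else 0) := by
    rintro ⟨w, w'⟩ hi
    rw [Finset.mem_product] at hi
    dsimp only
    have hD := hI w hi.1 w' hi.2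
    obtain ⟨D, hDd⟩ : ∃ D, D = |b w - b w'| := ⟨_, rfl⟩
    have hD0 : 0 ≤ D := by rw [hDd]; exact abs_nonneg _
    rw [← hDd] at hD
    have hterm : ∀ j ∈ range (I + 1), 0 ≤ 4 * (T + M) * (1 / 2) ^ j *
        (if |b w - b w'| ≤ 2 ^ (j + 1) ∧ |a w - a w'| ≤ (T + M) * 2 ^ (j + 1)
          then (1 : ℝ) else 0) := by
      intro j _
      have : (0 : ℝ) ≤ (if |b w - b w'| ≤ 2 ^ (j + 1) ∧ |a w - a w'| ≤ (T + M) * 2 ^ (j + 1)
          then (1 : ℝ) else 0) := by
        split_ifs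
        · exact zero_le_one
        · exact le_rfl
      positivity
    have hset : {t | t ∈ Set.Icc (-T) T ∧ |(a w + t * b w) - (a w' + t * b w')| ≤ M} =
        {t | t ∈ Set.Icc (-T) T ∧ |(a w - a w') + t * (b w - b w')| ≤ M} := by
      ext t
      have : (a w + t * b w) - (a w' + t * b w') = (a w - a w') + t * (b w - b w') := by ring
      simp only [Set.mem_setOf_eq, this]
    rw [hset]
    rcases Set.eq_empty_or_nonempty
      {t | t ∈ Set.Icc (-T) T ∧ |(a w - a w') + t * (b w - b w')| ≤ M} with he | ⟨t, ht1, ht2⟩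
    · rw [he, measure_empty, ENNReal.toReal_zero]
      exact Finset.sum_nonneg hterm
    · obtain ⟨j, hj1, hj2⟩ := exists_nat_pow_near (show (1 : ℝ) ≤ D + 1 by linarith)
        (show (1 : ℝ) < 2 by norm_num)
      have hjI : j ≤ I := by
        by_contra hcon
        push Not at hcon
        have h1 : (2 : ℝ) ^ (I + 1) ≤ 2 ^ j := pow_le_pow_right₀ (by norm_num) hcon
        have h2 : (2 : ℝ) ^ I < 2 ^ (I + 1) := by
          rw [pow_succ]
          have : (0 : ℝ) < 2 ^ I := by positivity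
          linarith
        linarith
      have htT : |t| ≤ T := abs_le.2 ⟨ht1.1, ht1.2⟩
      have ha : |a w - a w'| ≤ (T + M) * 2 ^ (j + 1) := by
        have h1 : a w - a w' = ((a w - a w') + t * (b w - b w')) - t * (b w - b w') := by ring
        have h2 : |a w - a w'| ≤ |(a w - a w') + t * (b w - b w')| + |t * (b w - b w')| := by
          nth_rewrite 1 [h1]
          exact abs_sub _ _
        rw [abs_mul t, ← hDd] at h2
        have h3 : |t| * D ≤ T * D := mul_le_mul_of_nonneg_right htT hD0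
        have h4 : T * D + M ≤ (T + M) * (D + 1) := by nlinarith
        have h5 : (T + M) * (D + 1) ≤ (T + M) * 2 ^ (j + 1) :=
          mul_le_mul_of_nonneg_left hj2.le (by linarith)
        linarith
      refine le_trans ?_ (Finset.single_le_sum hterm (Finset.mem_range.2 (by omega : j < I + 1)))
      rw [if_pos ⟨by rw [← hDd]; linarith, ha⟩, mul_one]
      refine (vol_lin (by linarith) (by linarith)).trans ?_
      rw [← hDd, div_le_iff₀ (by linarith)]
      have h6 : (1 : ℝ) ≤ (1 / 2) ^ j * (D + 1) := by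
        rw [one_div, inv_pow, ← div_eq_inv_mul, le_div_iff₀ (by positivity)]
        linarith
      calc 4 * (T + M) = 4 * (T + M) * 1 := by ring
        _ ≤ 4 * (T + M) * ((1 / 2) ^ j * (D + 1)) :=
            mul_le_mul_of_nonneg_left h6 (by linarith)
        _ = _ := by ring
  refine (Finset.sum_le_sum hpt).trans ?_
  rw [Finset.sum_comm]
  -- the sum for each j
  have hj : ∀ j ∈ range (I + 1), ∑ i ∈ X ×ˢ X, 4 * (T + M) * (1 / 2) ^ j *
        (if |b i.1 - b i.2| ≤ 2 ^ (j + 1) ∧ |a i.1 - a i.2| ≤ (T + M) * 2 ^ (j + 1)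
          then (1 : ℝ) else 0) ≤
      4 * (T + M) * (1 / 2) ^ j *
        ((X.card : ℝ) * (K * ((T + M) * 2 ^ (j + 1) + τ1) * (2 ^ (j + 1) + τ2))) := by
    intro j _
    rw [← Finset.mul_sum]
    refine mul_le_mul_of_nonneg_left ?_ (by positivity)
    rw [Finset.sum_product_right]
    have h1 : ∀ w' ∈ X, ∑ w ∈ X, (if |b w - b w'| ≤ 2 ^ (j + 1) ∧
        |a w - a w'| ≤ (T + M) * 2 ^ (j + 1) then (1 : ℝ) else 0) ≤
        K * ((T + M) * 2 ^ (j + 1) + τ1) * (2 ^ (j + 1) + τ2) := by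
      intro w' _
      have h2 := hcount (b w') (a w') ((T + M) * 2 ^ (j + 1)) (2 ^ (j + 1)) (by positivity)
        (by positivity)
      refine le_trans (le_of_eq ?_) h2
      unfold cn
      rw [Finset.sum_boole]
      congr!
    refine (Finset.sum_le_sum h1).trans ?_
    rw [Finset.sum_const, nsmul_eq_mul]
  refine (Finset.sum_le_sum hj).trans ?_
  -- the geometric sum
  have hgeo : ∀ n : ℕ, ∑ j ∈ range (n + 1), (1 / 2 : ℝ) ^ j *
      (((T + M) * 2 ^ (j + 1) + τ1) * (2 ^ (j + 1) + τ2)) ≤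
      (T + M) * (8 * 2 ^ n + 2 * (n + 1) * (τ1 + τ2) + 2 * τ1 * τ2 - 2 * τ1 * τ2 * (1 / 2) ^ (n + 1)) := by
    intro n
    induction n with
    | zero =>
      simp only [zero_add, Finset.sum_range_one, pow_zero, one_mul, pow_one, Nat.cast_zero]
      nlinarith [mul_nonneg hτ1 hτ2, mul_nonneg (by linarith : 0 ≤ T + M - 1) hτ1,
        mul_nonneg (by linarith : 0 ≤ T + M - 1) (mul_nonneg hτ1 hτ2),
        mul_nonneg (by linarith : 0 ≤ T + M) hτ2]
    | succ n ih =>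
      rw [Finset.sum_range_succ]
      obtain ⟨x, hx⟩ : ∃ x : ℝ, x = 2 ^ n := ⟨_, rfl⟩
      obtain ⟨y, hy⟩ : ∃ y : ℝ, y = (1 / 2) ^ n := ⟨_, rfl⟩
      have hxy : y * x = 1 := by
        rw [hx, hy, ← mul_pow]
        norm_num
      have hx0 : 0 < x := by rw [hx]; positivity
      have hy0 : 0 < y := by rw [hy]; positivity
      have e1 : (2 : ℝ) ^ (n + 1 + 1) = 4 * x := by rw [hx]; ring
      have e2 : (1 / 2 : ℝ) ^ (n + 1) = y / 2 := by rw [hy]; ring
      have e3 : (1 / 2 : ℝ) ^ (n + 1 + 1) = y / 4 := by rw [hy]; ring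
      have e4 : (2 : ℝ) ^ (n + 1) = 2 * x := by rw [hx]; ring
      rw [e1, e2, e3, e4]
      rw [← hx, e2] at ih
      push_cast
      have e5 : y / 2 * (((T + M) * (4 * x) + τ1) * (4 * x + τ2)) =
          (T + M) * (8 * x) * (y * x) + 2 * (T + M) * τ2 * (y * x) + 2 * τ1 * (y * x) +
            y / 2 * τ1 * τ2 := by ring
      rw [e5, hxy]
      have e6 : 2 * τ1 ≤ 2 * (T + M) * τ1 := by nlinarith
      have e7 : y / 2 * τ1 * τ2 ≤ (T + M) * (y / 2 * τ1 * τ2) := by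
        have : 0 ≤ y / 2 * τ1 * τ2 := by positivity
        nlinarith
      nlinarith
  have hsum : ∑ j ∈ range (I + 1), 4 * (T + M) * (1 / 2) ^ j *
        ((X.card : ℝ) * (K * ((T + M) * 2 ^ (j + 1) + τ1) * (2 ^ (j + 1) + τ2))) =
      4 * (T + M) * (X.card : ℝ) * K * ∑ j ∈ range (I + 1), (1 / 2 : ℝ) ^ j *
      (((T + M) * 2 ^ (j + 1) + τ1) * (2 ^ (j + 1) + τ2)) := by
    rw [Finset.mul_sum]
    refine Finset.sum_congr rfl fun j _ => ?_
    ring
  rw [hsum]
  have hc : 0 ≤ 4 * (T + M) * (X.card : ℝ) * K := by positivity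
  refine (mul_le_mul_of_nonneg_left (hgeo I) hc).trans ?_
  have e8 : 0 ≤ 2 * τ1 * τ2 * (1 / 2 : ℝ) ^ (I + 1) := by positivity
  have e9 : (T + M) * (8 * 2 ^ I + 2 * ((I : ℝ) + 1) * (τ1 + τ2) + 2 * τ1 * τ2 -
      2 * τ1 * τ2 * (1 / 2) ^ (I + 1)) ≤
      (T + M) * (8 * 2 ^ I + 2 * ((I : ℝ) + 1) * (τ1 + τ2) + 2 * τ1 * τ2) :=
    mul_le_mul_of_nonneg_left (by linarith) (by linarith)
  refine (mul_le_mul_of_nonneg_left e9 hc).trans (le_of_eq ?_)
  ring

end TWar
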