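import Pool.Agent.TWar.AeT
import Pool.Agent.TWar.Asm
import Pool.Agent.FWar.Dioph
import Pool.Agent.FWar.WeylP

/-!
# TWar.FinT: plain powers and values of a polynomial with one random coefficient
-/

namespace TWar

open MWg FWar Finset MeasureTheory Filter Topology

private theorem FinT_good {k : ℕ} (hk : 2 ≤ k) (c : ℕ → ℝ) (n : ℕ) (hn : n ≤ k) :
    Good k (fun x => (x : ℝ) ^ k + ∑ i ∈ range n, c i * (x : ℝ) ^ i) := by
  induction n with
  | zero => simpa using good_pow (by omega : 1 ≤ k)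
  | succ n ih =>
    have h1 := good_add_pow (by omega : n < k) (ih (by omega)) (c n)
    convert h1 using 2
    rw [sum_range_succ]
    ring

theorem FinT_good0 {k : ℕ} (hk : 2 ≤ k) {g : Polynomial ℝ} (hg : g.natDegree < k) :
    Good k (fun x => (x : ℝ) ^ k + g.eval (x : ℝ)) := by
  have h1 := FinT_good hk (fun i => g.coeff i) k le_rfl
  convert h1 using 3 with x
  rw [Polynomial.eval_eq_sum_range' hg]

private theorem FinT_grow {k : ℕ} (hk : 2 ≤ k) {α : ℝ} (hα : 0 < α) {h : ℕ → ℝ} (hh : Good k h) :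
    Grow k α (fun x => α * h x) := by
  refine ⟨hα, ?_, ?_⟩
  · have h1 := (good_lim (by omega : 1 ≤ k) hh).const_mul α
    rw [mul_one] at h1
    refine h1.congr fun x => ?_
    rw [Real.rpow_natCast, mul_div_assoc]
  · obtain ⟨x0, hx0⟩ := good_step hk hh
    refine ⟨α * (2 * k * 2 ^ (k - 1)), ?_⟩
    filter_upwards [eventually_ge_atTop x0, eventually_ge_atTop 1] with x hx hx1
    obtain ⟨h1, h2⟩ := hx0 x (x + 1) hx (Nat.le_succ x)
    have hx1' : (1 : ℝ) ≤ x := by exact_mod_cast hx1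
    have e1 : (((x + 1 : ℕ) : ℝ) - x) = 1 := by push_cast; ring
    rw [e1, mul_one] at h1 h2
    have e2 : (x : ℝ) ^ ((k : ℝ) - 1) = (x : ℝ) ^ (k - 1) := by
      rw [← Real.rpow_natCast, Nat.cast_sub (by omega : 1 ≤ k), Nat.cast_one]
    have h3 : (((x + 1 : ℕ) : ℝ)) ^ (k - 1) ≤ (2 * (x : ℝ)) ^ (k - 1) := by
      apply pow_le_pow_left₀ (by positivity)
      push_cast
      linarith
    rw [mul_pow] at h3
    have h4 : (0 : ℝ) ≤ (x : ℝ) ^ (k - 1) := by positivity
    refine ⟨?_, ?_⟩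
    · rw [← mul_sub]
      exact mul_nonneg hα.le (by linarith)
    · rw [← mul_sub, e2, mul_assoc α]
      apply mul_le_mul_of_nonneg_left _ hα.le
      calc h (x + 1) - h x ≤ 2 * k * ((x + 1 : ℕ) : ℝ) ^ (k - 1) := h2
        _ ≤ 2 * k * (2 ^ (k - 1) * (x : ℝ) ^ (k - 1)) :=
            mul_le_mul_of_nonneg_left h3 (by positivity)
        _ = 2 * k * 2 ^ (k - 1) * (x : ℝ) ^ (k - 1) := by ring

theorem val_lin (f1 f2 : ℕ → ℝ) (t : ℝ) (l : List (ℕ × ℕ)) :
    val (fun x => f1 x + t * f2 x) (fun _ => 0) l =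
      val f1 (fun _ => 0) l + t * val f2 (fun _ => 0) l := by
  induction l with
  | nil => simp [val_nil]
  | cons p l ih =>
    rw [val_cons, val_cons, val_cons, ih]
    ring

theorem val_mul (A : ℝ) (f : ℕ → ℝ) (l : List (ℕ × ℕ)) :
    val (fun x => A * f x) (fun _ => 0) l = A * val f (fun _ => 0) l := by
  induction l with
  | nil => simp [val_nil]
  | cons p l ih =>
    rw [val_cons, val_cons, ih]
    ring

/-- The integer value of a plain chain. -/
def iv (A k : ℕ) (l : List (ℕ × ℕ)) : ℤ := (l.map fun p => (A : ℤ) * (p.1 : ℤ) ^ k).sum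

/-- The integer value of a chain of letters of `f`. -/
noncomputable def fv (f : ℕ → ℝ) (l : List (ℕ × ℕ)) : ℤ := (l.map fun p => ⌊f p.1⌋).sum

theorem iv_val (A k : ℕ) (l : List (ℕ × ℕ)) :
    (iv A k l : ℝ) = A * val (fun x => (x : ℝ) ^ k) (fun _ => 0) l := by
  induction l with
  | nil => simp [iv, val_nil]
  | cons p l ih =>
    have : iv A k (p :: l) = (A : ℤ) * (p.1 : ℤ) ^ k + iv A k l := by simp [iv]
    rw [this, val_cons]
    push_cast
    rw [ih]
    ring

theorem fv_val (f : ℕ → ℝ) (l : List (ℕ × ℕ)) :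
    (fv f l : ℝ) ≤ val f (fun _ => 0) l ∧ val f (fun _ => 0) l - l.length ≤ (fv f l : ℝ) := by
  induction l with
  | nil => simp [fv, val_nil]
  | cons p l ih =>
    have : fv f (p :: l) = ⌊f p.1⌋ + fv f l := by simp [fv]
    rw [this, val_cons, List.length_cons]
    push_cast
    have h1 := Int.floor_le (f p.1)
    have h2 := Int.lt_floor_add_one (f p.1)
    constructor
    · linarith [ih.1]
    · linarith [ih.2]

theorem sizeC {k : ℕ} (hk : 3 ≤ k) (q1 : ℕ) : ∀ᶠ r : ℕ in atTop, ∀ c ∈ CT k q1 r,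
    |val (fun x => (x : ℝ) ^ k) (fun _ => 0) c| ≤ (XX r) ^ k / 16 := by
  obtain ⟨C, hC, P0, hP0, hval⟩ := val_bound (n := k) (by omega) (good_pow (by omega : 1 ≤ k))
    (side_J0 k) q1
  filter_upwards [((nxt_tendsto (by omega : 2 ≤ k)).comp XX_tendsto).eventually_ge_atTop P0,
    XX_tendsto.eventually_ge_atTop (16 * (C * (k * 16 ^ k)))] with r hr1 hr2 c hc
  have hP := XX_pos r
  refine (hval _ hr1 c hc).trans ?_
  have e1 : nxt k (XX r) ^ k = (k : ℝ) * 16 ^ k * (XX r) ^ (k - 1) := nxt_pow (by omega) hP.le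
  have e2 : (XX r) ^ k = XX r * (XX r) ^ (k - 1) := by
    rw [← pow_succ']
    congr 1
    omega
  show C * (nxt k (XX r)) ^ k ≤ _
  rw [e1, e2]
  have h11 : (0 : ℝ) ≤ (XX r) ^ (k - 1) := by positivity
  have h12 := mul_le_mul_of_nonneg_right hr2 h11
  linarith

theorem sizeG {k : ℕ} (hk : 3 ≤ k) {f : ℕ → ℝ} (hf : Good k f) (q : ℕ) :
    ∃ R0 : ℝ, 1 ≤ R0 ∧ ∀ R, R0 ≤ R → ∀ g ∈ chain (k - 1) J0 q R,
      |val f (fun _ => 0) g| ≤ 2 * (16 * R) ^ k := by
  have hlim := good_lim (by omega : 1 ≤ k) hf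
  have h1 : ∀ᶠ x : ℕ in atTop, f x / (x : ℝ) ^ k < 3 / 2 :=
    hlim.eventually (gt_mem_nhds (by norm_num))
  have h2 : ∀ᶠ x : ℕ in atTop, (-(3 / 2) : ℝ) < f x / (x : ℝ) ^ k :=
    hlim.eventually (lt_mem_nhds (by norm_num))
  obtain ⟨x0, hx0⟩ := eventually_atTop.1 (h1.and h2)
  induction q with
  | zero =>
    refine ⟨1, le_rfl, fun R hR g hg => ?_⟩
    rw [mem_chain_zero] at hg
    rw [hg, val_nil, abs_zero]
    positivity
  | succ q ih =>
    obtain ⟨R0, hR0, ih⟩ := ih
    obtain ⟨R1, hR1⟩ := eventually_atTop.1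
      ((nxt_tendsto (by omega : 2 ≤ k - 1)).eventually_ge_atTop R0)
    obtain ⟨B, hB⟩ : ∃ B : ℝ, B = ((k - 1 : ℕ) : ℝ) * 16 ^ (k - 1) * 4 ^ (k - 1) := ⟨_, rfl⟩
    refine ⟨max (max 1 R1) (max (x0 : ℝ) B), (le_max_left _ _).trans (le_max_left _ _),
      fun R hR g hg => ?_⟩
    have r1 : 1 ≤ R := ((le_max_left _ _).trans (le_max_left _ _)).trans hR
    have r2 : R1 ≤ R := ((le_max_right _ _).trans (le_max_left _ _)).trans hR
    have r3 : (x0 : ℝ) ≤ R := ((le_max_left _ _).trans (le_max_right _ _)).trans hR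
    have r4 : B ≤ R := ((le_max_right _ _).trans (le_max_right _ _)).trans hR
    obtain ⟨u, hu, v, hv, g', hg', rfl⟩ := mem_chain_succ.1 hg
    rw [val_cons]
    have hRpos : 0 < R := by linarith
    obtain ⟨hu1, hu2⟩ := (mem_mainI hRpos.le).1 hu
    have hux : x0 ≤ u := by
      have : (x0 : ℝ) ≤ u := by linarith
      exact_mod_cast this
    obtain ⟨h3, h4⟩ := hx0 u hux
    have hupos : (0 : ℝ) < u := by linarith
    have huk : (0 : ℝ) < (u : ℝ) ^ k := by positivity
    rw [div_lt_iff₀ huk] at h3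
    rw [lt_div_iff₀ huk] at h4
    have h5 : |f u| ≤ 3 / 2 * (u : ℝ) ^ k := abs_le.2 ⟨by linarith, by linarith⟩
    have h6 : (u : ℝ) ^ k ≤ (16 * R) ^ k := pow_le_pow_left₀ hupos.le hu2 k
    have h7 := ih (nxt (k - 1) R) (hR1 R r2) g' hg'
    have h8 : nxt (k - 1) R ≤ R / 4 := by
      have hk1 : k - 1 ≠ 0 := by omega
      refine le_of_pow_le_pow_left₀ hk1 (by positivity) ?_
      rw [nxt_pow (by omega) hRpos.le, div_pow, le_div_iff₀ (by positivity)]
      have e1 : R ^ (k - 1) = R * R ^ (k - 1 - 1) := by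
        rw [← pow_succ']
        congr 1
        omega
      rw [e1]
      have h9 : (0 : ℝ) ≤ R ^ (k - 1 - 1) := by positivity
      have h10 := mul_le_mul_of_nonneg_right r4 h9
      rw [hB] at h10
      linarith
    have h9 : 0 ≤ nxt (k - 1) R := nxt_nonneg hRpos.le
    have h10 : (16 * nxt (k - 1) R) ^ k ≤ (16 * R) ^ k / 4 := by
      have e1 : (16 * nxt (k - 1) R) ^ k ≤ (16 * R / 4) ^ k := by
        apply pow_le_pow_left₀ (by positivity)
        linarith
      refine e1.trans ?_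
      rw [div_pow]
      apply div_le_div_of_nonneg_left (by positivity) (by norm_num)
      exact le_self_pow₀ (by norm_num) (by omega)
    have h11 := abs_add_le (f u + 0) (val f (fun _ => 0) g')
    rw [add_zero] at h11 ⊢
    linarith

/-- Every large integer is a sum of `r` terms `A x^k` and `m` terms `⌊A f y⌋`. -/
def MixL (k A : ℕ) (f : ℕ → ℝ) (r m : ℕ) : Prop :=
  ∃ N0 : ℤ, ∀ N : ℤ, N0 ≤ N → ∃ lx ly : List ℕ, lx.length = r ∧ ly.length = m ∧
    (∀ n ∈ lx, 1 ≤ n) ∧ (∀ n ∈ ly, 1 ≤ n) ∧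
    (lx.map fun n : ℕ => (A : ℤ) * (n : ℤ) ^ k).sum + fs (fun x => (A : ℝ) * f x) ly = N

theorem iv_map (A k : ℕ) (l : List (ℕ × ℕ)) :
    ((l.map Prod.fst).map fun n : ℕ => (A : ℤ) * (n : ℤ) ^ k).sum = iv A k l := by
  unfold iv
  rw [List.map_map]
  rfl

theorem fv_map (f : ℕ → ℝ) (l : List (ℕ × ℕ)) : fs f (l.map Prod.fst) = fv f l := by
  unfold fs fv
  rw [List.map_map]
  rfl

theorem floor_mix {k q1 q2 : ℕ} (hk : 3 ≤ k) (hq : xb k q1 + xg k q2 ≤ ((k - 1 : ℕ) : ℝ))
    {g : Polynomial ℝ} (hg : g.natDegree < k) :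
    ∀ᵐ t : ℝ, ∀ A : ℕ, 1 ≤ A →
      MixL k A (fun x : ℕ => (x : ℝ) ^ k + g.eval (x : ℝ) + t * (x : ℝ) ^ (k - 1))
        (2 * (q1 + 1)) (2 * q2 + 1) := by
  obtain ⟨σ, hσ, hW⟩ := weylP (by omega : 2 ≤ k)
  have hf0 := FinT_good0 (by omega : 2 ≤ k) hg
  filter_upwards [aeT hk hq (fun x : ℕ => (x : ℝ) ^ k + g.eval (x : ℝ)) (ε := σ / 8) (by linarith),
    ae_dioph_affine (b := g.coeff (k - 1)) (c := 1) one_ne_zero] with t htA htD
  intro A hA1
  have hA0 : (0 : ℝ) < A := by
    have : 0 < A := hA1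
    exact_mod_cast this
  have hh := good_add_pow (by omega : k - 1 < k) hf0 t
  obtain ⟨f, hf⟩ : ∃ f : ℕ → ℝ, f = fun x : ℕ => (x : ℝ) ^ k + g.eval (x : ℝ) +
    t * (x : ℝ) ^ (k - 1) := ⟨_, rfl⟩
  have hh' : Good k f := by rw [hf]; exact hh
  rw [← hf]
  obtain ⟨R0, hR0, hsz⟩ := sizeG hk hh' q2
  have key := floor_basisT (κ := (k : ℝ)) (α := (A : ℝ)) (σ := σ)
    (F := fun x : ℕ => (A : ℝ) * (x : ℝ) ^ k) (f := fun x : ℕ => (A : ℝ) * f x) (d := q2)
    (W := fun r => WT k q1 q2 r) (sv := fun w => iv A k w.1 + fv (fun x => (A : ℝ) * f x) w.2)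
    (rv := fun w => (A : ℝ) * val (fun x => (x : ℝ) ^ k) (fun _ => 0) w.1 +
      val (fun x => (A : ℝ) * f x) (fun _ => 0) w.2)
    (by have : (3 : ℝ) ≤ k := by exact_mod_cast hk
        linarith) hσ
    (FinT_grow (by omega) hA0 (good_pow (by omega : 1 ≤ k))) (FinT_grow (by omega) hA0 hh')
    ?_ ?_ ?_ ?_ ?_
  · obtain ⟨N0, hN0⟩ := key
    refine ⟨N0, fun N hN => ?_⟩
    obtain ⟨r, u, hu, w, hw, u', hu', w', hw', z, hz, heq⟩ := hN0 N hN
    have hP := XX_pos r
    have hw1 := Finset.mem_product.1 hw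
    have hw1' := Finset.mem_product.1 hw'
    have q3 : ∀ x ∈ mainI (XX r), 1 ≤ x := by
      intro x hx
      have h1 := ((mem_mainI hP.le).1 hx).1
      have h2 : (0 : ℝ) < (x : ℝ) := by linarith
      have : 0 < x := by exact_mod_cast h2
      omega
    refine ⟨(u :: w.1.map Prod.fst) ++ (u' :: w'.1.map Prod.fst),
      w.2.map Prod.fst ++ (w'.2.map Prod.fst ++ [z]), ?_, ?_, ?_, ?_, ?_⟩
    · have l1 := chain_length hw1.1
      have l2 := chain_length hw1'.1
      simp only [List.length_append, List.length_cons, List.length_map]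
      rw [l1, l2]
      ring
    · have l1 := chain_length hw1.2
      have l2 := chain_length hw1'.2
      simp only [List.length_append, List.length_cons, List.length_map, List.length_nil]
      rw [l1, l2]
      ring
    · intro n hn
      simp only [List.mem_append, List.mem_cons, List.mem_map] at hn
      rcases hn with (rfl | ⟨p, hp, rfl⟩) | (rfl | ⟨p, hp, rfl⟩)
      · exact q3 _ hu
      · exact chain_fst_pos hw1.1 p hp
      · exact q3 _ hu'
      · exact chain_fst_pos hw1'.1 p hp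
    · intro n hn
      simp only [List.mem_append, List.mem_cons, List.mem_map, List.not_mem_nil, or_false] at hn
      rcases hn with ⟨p, hp, rfl⟩ | (⟨p, hp, rfl⟩ | rfl)
      · exact chain_fst_pos hw1.2 p hp
      · exact chain_fst_pos hw1'.2 p hp
      · have h1 := ((mem_J1 hP.le).1 hz).1
        have h2 : (0 : ℝ) < (n : ℝ) := by linarith
        have : 0 < n := by exact_mod_cast h2
        omega
    · rw [← heq]
      have e1 : ∀ x : ℕ, ⌊(A : ℝ) * (x : ℝ) ^ k⌋ = (A : ℤ) * (x : ℤ) ^ k := by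
        intro x
        have : (A : ℝ) * (x : ℝ) ^ k = (((A : ℤ) * (x : ℤ) ^ k : ℤ) : ℝ) := by push_cast; rfl
        rw [this, Int.floor_intCast]
      rw [e1, e1, List.map_append, List.map_cons, List.map_cons, List.sum_append, List.sum_cons,
        List.sum_cons, iv_map, iv_map]
      have e2 : fs (fun x => (A : ℝ) * f x)
          (w.2.map Prod.fst ++ (w'.2.map Prod.fst ++ [z])) =
          fv (fun x => (A : ℝ) * f x) w.2 + (fv (fun x => (A : ℝ) * f x) w'.2 +
            ⌊(A : ℝ) * f z⌋) := by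
        rw [← fv_map, ← fv_map]
        simp [fs]
      rw [e2]
      ring
  · -- Weyl
    obtain ⟨g', hg'⟩ : ∃ g' : Polynomial ℝ, g' = Polynomial.C (A : ℝ) *
      (g + Polynomial.C t * Polynomial.X ^ (k - 1)) := ⟨_, rfl⟩
    have hd' : g'.natDegree < k := by
      rw [hg']
      refine lt_of_le_of_lt (Polynomial.natDegree_C_mul_le _ _) ?_
      refine lt_of_le_of_lt (Polynomial.natDegree_add_le _ _) (max_lt hg ?_)
      refine lt_of_le_of_lt (Polynomial.natDegree_C_mul_X_pow_le _ _) (by omega)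
    have hc' : g'.coeff (k - 1) / (A : ℝ) = (g.coeff (k - 1) + t) / 1 := by
      rw [hg', Polynomial.coeff_C_mul, Polynomial.coeff_add, Polynomial.coeff_C_mul_X_pow,
        if_pos rfl]
      field_simp
    have h1 := hW A g' hA0 hd' (by rw [hc']; exact htD)
    filter_upwards [h1] with r hr θ hθ1 hθ2
    have h2 := hr θ hθ1 hθ2
    refine le_trans (le_of_eq ?_) h2
    congr 1
    refine sum_congr rfl fun z _ => ?_
    congr 2
    rw [hg', hf, Polynomial.eval_mul, Polynomial.eval_C, Polynomial.eval_add, Polynomial.eval_mul,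
      Polynomial.eval_C, Polynomial.eval_pow, Polynomial.eval_X]
    ring
  · -- values
    intro r w hw
    have hw1 := Finset.mem_product.1 hw
    have h1 := fv_val (fun x => (A : ℝ) * f x) w.2
    have l1 := chain_length hw1.2
    rw [l1] at h1
    push_cast
    rw [iv_val]
    constructor
    · linarith [h1.1]
    · linarith [h1.2]
  · -- nonempty
    filter_upwards [tot_ev q1 q2 hk] with r hr
    have h1 : (CT k q1 r).Nonempty := by
      rw [← Finset.card_pos]
      exact_mod_cast hr.2.1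
    have h2 : (GT k q2 r).Nonempty := by
      rw [← Finset.card_pos]
      exact_mod_cast hr.2.2
    exact h1.product h2
  · -- sizes
    filter_upwards [sizeC hk q1, XX_tendsto.eventually_ge_atTop (512 * R0)] with r hr1 hr2 w hw
    have hP := XX_pos r
    have hw1 := Finset.mem_product.1 hw
    have h1 := hr1 w.1 hw1.1
    have h2 := hsz (XX r / 512) (by rw [le_div_iff₀ (by norm_num)]; linarith) w.2 hw1.2
    have h3 : 2 * (16 * (XX r / 512)) ^ k ≤ (XX r) ^ k / 16 := by
      have e1 : 16 * (XX r / 512) = XX r / 32 := by ring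
      rw [e1, div_pow]
      have e2 : (XX r) ^ k / 32 ^ k ≤ (XX r) ^ k / 32 := by
        apply div_le_div_of_nonneg_left (by positivity) (by norm_num)
        exact le_self_pow₀ (by norm_num) (by omega)
      linarith
    rw [val_mul, Real.rpow_natCast, ← mul_add, abs_mul, abs_of_pos hA0, mul_div_assoc]
    apply mul_le_mul_of_nonneg_left _ hA0.le
    have h4 := abs_add_le (val (fun x => (x : ℝ) ^ k) (fun _ => 0) w.1)
      (val f (fun _ => 0) w.2)
    have h5 : 0 ≤ (XX r) ^ k := by positivity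
    linarith
  · -- coincidences
    have h1 := htA (((q2 : ℝ) + 1) / A)
    filter_upwards [h1] with r hr
    rw [Real.rpow_natCast]
    refine le_trans (pairs_mono _ ?_) hr
    intro w _ w' _ hww
    dsimp only at hww ⊢
    have e1 : ∀ w : ℕ × (List (ℕ × ℕ) × List (ℕ × ℕ)), (A : ℝ) * (w.1 : ℝ) ^ k +
        ((A : ℝ) * val (fun x => (x : ℝ) ^ k) (fun _ => 0) w.2.1 +
          val (fun x => (A : ℝ) * f x) (fun _ => 0) w.2.2) =
        A * (aT k (fun x => (x : ℝ) ^ k + g.eval (x : ℝ)) w + t * bT k w) := by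
      intro w
      rw [val_mul, hf, val_lin]
      unfold aT bT
      ring
    rw [e1 w, e1 w', ← mul_sub, abs_mul, abs_of_pos hA0] at hww
    rwa [le_div_iff₀' hA0]

end TWar
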