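import Pool.Agent.TWar.FinT
import Pool.Agent.UWar.FinU
import Pool.Agent.UWar.ParExU

/-!
# TWar.ResT: final form, plain powers and values of a polynomial with `d ≥ 1` random coefficients
-/

namespace TWar

open MWg FWar UWar MeasureTheory Filter Topology

theorem mix_fin {k A r m : ℕ} {f : ℕ → ℝ} (h : MixL k A f r m) :
    ∃ N0 : ℤ, ∀ N : ℤ, N0 ≤ N → ∃ (x : Fin r → ℕ) (y : Fin m → ℕ), (∀ i, 0 < x i) ∧
      (∀ j, 0 < y j) ∧ ∑ i, (A : ℤ) * (x i : ℤ) ^ k + ∑ j, ⌊(A : ℝ) * f (y j)⌋ = N := by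
  obtain ⟨N0, h⟩ := h
  refine ⟨N0, fun N hN => ?_⟩
  obtain ⟨lx, ly, h1, h2, h3, h4, h5⟩ := h N hN
  subst h1
  subst h2
  refine ⟨fun i => lx.get i, fun i => ly.get i, fun i => h3 _ (List.get_mem lx i),
    fun i => h4 _ (List.get_mem ly i), ?_⟩
  rw [← h5]
  have e1 : lx.map (fun n : ℕ => (A : ℤ) * (n : ℤ) ^ k) =
      List.ofFn fun i : Fin lx.length => (A : ℤ) * ((lx.get i : ℕ) : ℤ) ^ k := by
    rw [← Function.comp_def (fun n : ℕ => (A : ℤ) * (n : ℤ) ^ k) lx.get, ← List.map_ofFn,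
      List.ofFn_get]
  have e2 : ly.map (fun n => ⌊(A : ℝ) * f n⌋) =
      List.ofFn fun i : Fin ly.length => ⌊(A : ℝ) * f (ly.get i)⌋ := by
    rw [← Function.comp_def (fun n => ⌊(A : ℝ) * f n⌋) ly.get, ← List.map_ofFn, List.ofFn_get]
  rw [fs, e1, e2, List.sum_ofFn, List.sum_ofFn]

theorem exact_of_mix {k r m : ℕ} {f : ℕ → ℝ} (h : MixL k 1 f r m) : ExactU k r m f := by
  obtain ⟨N0, h⟩ := mix_fin h
  refine ⟨N0, fun N hN => ?_⟩
  obtain ⟨x, y, hx, hy, hxy⟩ := h N hN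
  simp only [Nat.cast_one, one_mul] at hxy
  exact ⟨x, y, hx, hy, hxy⟩

theorem approx_of_mix {k r m : ℕ} {f : ℕ → ℝ} (h : ∀ A : ℕ, 1 ≤ A → MixL k A f r m) :
    ApproxU k r m f := by
  intro ε hε
  obtain ⟨A, hA⟩ := exists_nat_gt (((m : ℝ) + 1) / ε)
  have hA0 : (0 : ℝ) < A := lt_of_le_of_lt (by positivity) hA
  have hA1 : 1 ≤ A := by
    have : 0 < A := by exact_mod_cast hA0
    omega
  obtain ⟨N0, h⟩ := mix_fin (h A hA1)
  refine ⟨(N0 : ℝ) / A, fun y hy => ?_⟩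
  have h1 : (N0 : ℝ) ≤ A * y := by
    rw [div_le_iff₀ hA0] at hy
    linarith
  obtain ⟨x, z, hx, hz, h3⟩ := h ⌊A * y⌋ (Int.le_floor.2 h1)
  refine ⟨x, z, hx, hz, ?_⟩
  have h3' : (A : ℝ) * ∑ i, (x i : ℝ) ^ k + ((∑ j, ⌊(A : ℝ) * f (z j)⌋ : ℤ) : ℝ) =
      (⌊A * y⌋ : ℝ) := by
    rw [← h3, Finset.mul_sum]
    push_cast
    rfl
  have h4 : ((∑ i, ⌊(A : ℝ) * f (z i)⌋ : ℤ) : ℝ) ≤ ∑ i, (A : ℝ) * f (z i) := by
    push_cast
    exact Finset.sum_le_sum fun i _ => Int.floor_le _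
  have h5 : ∑ i, (A : ℝ) * f (z i) ≤ ((∑ i, ⌊(A : ℝ) * f (z i)⌋ : ℤ) : ℝ) + m := by
    push_cast
    have : ∑ i : Fin m, (A : ℝ) * f (z i) ≤ ∑ i : Fin m, ((⌊(A : ℝ) * f (z i)⌋ : ℝ) + 1) :=
      Finset.sum_le_sum fun i _ => (Int.lt_floor_add_one _).le
    rw [Finset.sum_add_distrib] at this
    simpa using this
  have h6 : (⌊A * y⌋ : ℝ) ≤ A * y := Int.floor_le _
  have h7 : A * y < (⌊A * y⌋ : ℝ) + 1 := Int.lt_floor_add_one _
  rw [← Finset.mul_sum] at h4 h5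
  have hm : (0 : ℝ) ≤ m := Nat.cast_nonneg m
  have h8 : |(A : ℝ) * (∑ i, (x i : ℝ) ^ k + ∑ j, f (z j)) - A * y| ≤ (m : ℝ) + 1 := by
    rw [abs_le]
    constructor <;> linarith
  rw [← mul_sub, abs_mul, abs_of_pos hA0] at h8
  rw [div_lt_iff₀ hε] at hA
  have h9 : (A : ℝ) * |∑ i, (x i : ℝ) ^ k + ∑ j, f (z j) - y| < A * ε := by linarith
  exact lt_of_mul_lt_mul_left h9 hA0.le

theorem measurable_fsT {ι : Type*} [MeasurableSpace ι] {F : ι → ℕ → ℝ}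
    (hF : ∀ x, Measurable fun t => F t x) (l : List ℕ) : Measurable fun t => fs (F t) l := by
  induction l with
  | nil => simp [fs]
  | cons a l ih =>
    have : (fun t => fs (F t) (a :: l)) = fun t => ⌊F t a⌋ + fs (F t) l := by
      funext t
      simp [fs]
    rw [this]
    exact Measurable.add (Int.measurable_floor.comp (hF a)) ih

theorem measurableSet_mix {ι : Type*} [MeasurableSpace ι] {F : ι → ℕ → ℝ}
    (hF : ∀ x, Measurable fun t => F t x) (k A r m : ℕ) :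
    MeasurableSet {t | MixL k A (F t) r m} := by
  have h2 : {t | MixL k A (F t) r m} =
      ⋃ N0 : ℤ, ⋂ N : ℤ, ⋂ _ : N0 ≤ N, ⋃ lx : List ℕ, ⋃ ly : List ℕ,
        ⋃ _ : lx.length = r ∧ ly.length = m ∧ (∀ n ∈ lx, 1 ≤ n) ∧ (∀ n ∈ ly, 1 ≤ n),
        {t | (lx.map fun n : ℕ => (A : ℤ) * (n : ℤ) ^ k).sum +
          fs (fun x => (A : ℝ) * F t x) ly = N} := by
    ext c
    simp only [MixL, Set.mem_iUnion, Set.mem_iInter, Set.mem_setOf_eq]
    constructor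
    · rintro ⟨N0, h⟩
      refine ⟨N0, fun N hN => ?_⟩
      obtain ⟨lx, ly, h1, h2, h3, h4, h5⟩ := h N hN
      exact ⟨lx, ly, ⟨h1, h2, h3, h4⟩, h5⟩
    · rintro ⟨N0, h⟩
      refine ⟨N0, fun N hN => ?_⟩
      obtain ⟨lx, ly, ⟨h1, h2, h3, h4⟩, h5⟩ := h N hN
      exact ⟨lx, ly, h1, h2, h3, h4, h5⟩
  rw [h2]
  refine MeasurableSet.iUnion fun N0 => MeasurableSet.iInter fun N => MeasurableSet.iInter fun _ =>
    MeasurableSet.iUnion fun lx => MeasurableSet.iUnion fun ly => MeasurableSet.iUnion fun _ => ?_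
  have h3 : Measurable fun t => (lx.map fun n : ℕ => (A : ℤ) * (n : ℤ) ^ k).sum +
      fs (fun x => (A : ℝ) * F t x) ly :=
    measurable_const.add (measurable_fsT (F := fun t x => (A : ℝ) * F t x)
      (fun x => (hF x).const_mul _) ly)
  exact h3 (measurableSet_singleton N)

theorem ae_cons {n : ℕ} {Q : (Fin (n + 1) → ℝ) → Prop} (hm : MeasurableSet {t | Q t})
    (H : ∀ c : Fin n → ℝ, ∀ᵐ t : ℝ, Q (Fin.cons (α := fun _ => ℝ) t c)) :
    ∀ᵐ c : Fin (n + 1) → ℝ, Q c := by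
  have mp := volume_preserving_piFinSuccAbove (fun _ : Fin (n + 1) => ℝ) 0
  set e := MeasurableEquiv.piFinSuccAbove (fun _ : Fin (n + 1) => ℝ) 0 with he
  have key : ∀ᵐ p : ℝ × (Fin n → ℝ), Q (e.symm p) := by
    have hs : MeasurableSet {p : ℝ × (Fin n → ℝ) | ¬ Q (e.symm p)} :=
      (e.symm.measurable hm.compl)
    rw [ae_iff]
    have hsw : (volume : Measure (ℝ × (Fin n → ℝ))) {p | ¬ Q (e.symm p)} =
        ((volume : Measure (Fin n → ℝ)).prod (volume : Measure ℝ))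
          (Prod.swap ⁻¹' {p : ℝ × (Fin n → ℝ) | ¬ Q (e.symm p)}) := by
      have h3 := Measure.measurePreserving_swap (μ := (volume : Measure (Fin n → ℝ)))
        (ν := (volume : Measure ℝ))
      rw [h3.measure_preimage hs.nullMeasurableSet]
      rfl
    rw [hsw, Measure.measure_prod_null (measurable_swap hs)]
    refine Filter.Eventually.of_forall fun c => ?_
    have := H c
    rw [ae_iff] at this
    change (volume : Measure ℝ) (Prod.mk c ⁻¹'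
      (Prod.swap ⁻¹' {p : ℝ × (Fin n → ℝ) | ¬ Q (e.symm p)})) = 0
    convert this using 2
    ext t
    have h5 : e.symm (t, c) = Fin.cons (α := fun _ => ℝ) t c := by
      have : e.symm (t, c) = (0 : Fin (n + 1)).insertNth (α := fun _ => ℝ) t c := rfl
      rw [this, Fin.insertNth_zero']
    change ¬ Q (e.symm (t, c)) ↔ ¬ Q (Fin.cons t c)
    rw [h5]
  have h4 := mp.quasiMeasurePreserving.ae key
  filter_upwards [h4] with c hc
  simpa using hc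

theorem mix_d {k d q1 q2 : ℕ} (hk : 3 ≤ k) (hd : 1 ≤ d) (hdk : d ≤ k)
    (hq : xb k q1 + xg k q2 ≤ ((k - 1 : ℕ) : ℝ)) {g : Polynomial ℝ} (hg : g.natDegree < k) :
    ∀ᵐ t : Fin d → ℝ, ∀ A : ℕ, 1 ≤ A →
      MixL k A (fun x => (x : ℝ) ^ k + g.eval (x : ℝ) +
        ∑ i : Fin d, t i * (x : ℝ) ^ (k - 1 - (i : ℕ))) (2 * (q1 + 1)) (2 * q2 + 1) := by
  obtain ⟨n, rfl⟩ : ∃ n, d = n + 1 := ⟨d - 1, by omega⟩
  rw [ae_all_iff]
  intro A
  by_cases hA : 1 ≤ A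
  swap
  · exact Filter.Eventually.of_forall fun c h => absurd h hA
  have key : ∀ᵐ t : Fin (n + 1) → ℝ, MixL k A (fun x => (x : ℝ) ^ k + g.eval (x : ℝ) +
        ∑ i : Fin (n + 1), t i * (x : ℝ) ^ (k - 1 - (i : ℕ))) (2 * (q1 + 1)) (2 * q2 + 1) := by
    refine ae_cons (measurableSet_mix (F := fun (t : Fin (n + 1) → ℝ) (x : ℕ) => (x : ℝ) ^ k +
      g.eval (x : ℝ) + ∑ i : Fin (n + 1), t i * (x : ℝ) ^ (k - 1 - (i : ℕ)))
      (fun x => by fun_prop) k A _ _) fun c => ?_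
    set g' : Polynomial ℝ := g + ∑ m : Fin n, Polynomial.C (c m) *
      Polynomial.X ^ (k - 1 - ((m : ℕ) + 1)) with hg'
    have hgd : g'.natDegree < k := by
      refine lt_of_le_of_lt (Polynomial.natDegree_add_le _ _) (max_lt hg ?_)
      have : (∑ m : Fin n, Polynomial.C (c m) *
          Polynomial.X ^ (k - 1 - ((m : ℕ) + 1))).natDegree ≤ k - 1 := by
        apply Polynomial.natDegree_sum_le_of_forall_le
        intro m _
        refine (Polynomial.natDegree_C_mul_X_pow_le _ _).trans ?_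
        omega
      omega
    filter_upwards [floor_mix hk hq hgd] with t ht
    have h5 : (fun x : ℕ => (x : ℝ) ^ k + g.eval (x : ℝ) +
        ∑ i : Fin (n + 1), (Fin.cons (α := fun _ => ℝ) t c : Fin (n + 1) → ℝ) i *
          (x : ℝ) ^ (k - 1 - (i : ℕ))) =
        fun x : ℕ => (x : ℝ) ^ k + g'.eval (x : ℝ) + t * (x : ℝ) ^ (k - 1) := by
      funext x
      rw [Fin.sum_univ_succ]
      simp only [Fin.cons_zero, Fin.cons_succ, Fin.val_zero, Fin.val_succ, Nat.sub_zero, hg',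
        Polynomial.eval_add, Polynomial.eval_finsetSum, Polynomial.eval_mul, Polynomial.eval_C,
        Polynomial.eval_pow, Polynomial.eval_X]
      ring
    rw [h5]
    exact ht A hA
  filter_upwards [key] with t ht _
  exact ht

/-- The numbers of letters for real `c`. -/
theorem numT {k r m : ℕ} (hk : 3 ≤ k) {c : ℝ} (hc : 0 < c) (hc1 : c < 1)
    (hr : 2 * k * Real.log (1 / (1 - c)) + 5 ≤ (r : ℝ)) (hm : 2 * k * Real.log (1 / c) + 3 ≤ (m : ℝ)) :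
    ∃ q1 q2 : ℕ, xb k q1 + xg k q2 ≤ ((k - 1 : ℕ) : ℝ) ∧ 2 * (q1 + 1) ≤ r ∧ 2 * q2 + 1 ≤ m := by
  have hkR : (3 : ℝ) ≤ k := by exact_mod_cast hk
  have hk1 : ((k - 1 : ℕ) : ℝ) = (k : ℝ) - 1 := by
    rw [Nat.cast_sub (by omega)]
    norm_num
  have hc' : 0 < 1 - c := by linarith
  obtain ⟨δ, hδ⟩ : ∃ δ : ℝ, δ = (1 - c) * (((k : ℝ) - 1) / k) := ⟨_, rfl⟩
  have hfr : 0 < ((k : ℝ) - 1) / k := div_pos (by linarith) (by linarith)
  have hδ0 : 0 < δ := by rw [hδ]; exact mul_pos hc' hfr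
  have hfr1 : ((k : ℝ) - 1) / k < 1 := by
    rw [div_lt_one (by linarith)]
    linarith
  have hδ1 : δ < 1 := by
    rw [hδ]
    nlinarith
  have hlogδ : (k : ℝ) * Real.log (1 / δ) ≤ k * Real.log (1 / (1 - c)) + 3 / 2 := by
    have e1 : 1 / δ = (1 / (1 - c)) * ((k : ℝ) / (k - 1)) := by
      rw [hδ]
      have : (k : ℝ) - 1 ≠ 0 := by linarith
      have : (1 : ℝ) - c ≠ 0 := hc'.ne'
      field_simp
    have h1 : 0 < 1 / (1 - c) := by positivity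
    have h2 : 0 < (k : ℝ) / (k - 1) := div_pos (by linarith) (by linarith)
    rw [e1, Real.log_mul h1.ne' h2.ne', mul_add]
    have h3 := Real.log_le_sub_one_of_pos h2
    have h4 : (k : ℝ) * ((k : ℝ) / (k - 1) - 1) ≤ 3 / 2 := by
      have e2 : (k : ℝ) * ((k : ℝ) / (k - 1) - 1) = (k : ℝ) / (k - 1) := by
        have : (k : ℝ) - 1 ≠ 0 := by linarith
        field_simp
        ring
      rw [e2, div_le_iff₀ (by linarith)]
      linarith
    have h5 := mul_le_mul_of_nonneg_left h3 (show (0 : ℝ) ≤ k by linarith)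
    linarith
  have hlogδ0 : 0 < Real.log (1 / δ) := by
    apply Real.log_pos
    rw [lt_div_iff₀ hδ0]
    linarith
  have hlogc0 : 0 < Real.log (1 / c) := by
    apply Real.log_pos
    rw [lt_div_iff₀ hc]
    linarith
  obtain ⟨n1, hn1⟩ : ∃ n1, n1 = ⌈(k : ℝ) * Real.log (1 / δ)⌉₊ := ⟨_, rfl⟩
  obtain ⟨n2, hn2⟩ : ∃ n2, n2 = ⌈((k - 1 : ℕ) : ℝ) * Real.log (1 / c)⌉₊ := ⟨_, rfl⟩
  have a1 : (k : ℝ) * Real.log (1 / δ) ≤ n1 := by rw [hn1]; exact Nat.le_ceil _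
  have a2 : (n1 : ℝ) < (k : ℝ) * Real.log (1 / δ) + 1 := by
    rw [hn1]; exact Nat.ceil_lt_add_one (by positivity)
  have b1 : ((k - 1 : ℕ) : ℝ) * Real.log (1 / c) ≤ n2 := by rw [hn2]; exact Nat.le_ceil _
  have b2 : (n2 : ℝ) < ((k - 1 : ℕ) : ℝ) * Real.log (1 / c) + 1 := by
    rw [hn2]; exact Nat.ceil_lt_add_one (by positivity)
  have hn1pos : 1 ≤ n1 := by
    have : (0 : ℝ) < n1 := lt_of_lt_of_le (by positivity) a1
    exact_mod_cast this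
  have c1 : (1 - 1 / (k : ℝ)) ^ n1 ≤ δ := parExU_exp k n1 δ hδ0 (by omega) a1
  have c2 : (1 - 1 / ((k - 1 : ℕ) : ℝ)) ^ n2 ≤ c := parExU_exp (k - 1) n2 c hc (by omega) b1
  refine ⟨n1 - 1, n2, ?_, ?_, ?_⟩
  · unfold xb xg
    have e1 : n1 - 1 + 1 = n1 := by omega
    rw [e1]
    have d1 : (k : ℝ) * (1 - 1 / (k : ℝ)) ^ n1 ≤ k * δ :=
      mul_le_mul_of_nonneg_left c1 (by linarith)
    have d2 : ((k - 1 : ℕ) : ℝ) * (1 - 1 / ((k - 1 : ℕ) : ℝ)) ^ n2 ≤ ((k - 1 : ℕ) : ℝ) * c :=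
      mul_le_mul_of_nonneg_left c2 (Nat.cast_nonneg _)
    have e2 : (k : ℝ) * δ = (1 - c) * (k - 1) := by
      rw [hδ]
      field_simp
    rw [e2] at d1
    have e3 : ((k - 1 : ℕ) : ℝ) * c = (k - 1) * c := by rw [hk1]
    linarith
  · have h1 : ((2 * (n1 - 1 + 1) : ℕ) : ℝ) < (r : ℝ) + 1 := by
      have e1 : n1 - 1 + 1 = n1 := by omega
      rw [e1]
      push_cast
      linarith
    have h2 : 2 * (n1 - 1 + 1) < r + 1 := by exact_mod_cast h1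
    omega
  · have h1 : ((2 * n2 + 1 : ℕ) : ℝ) < (m : ℝ) + 1 := by
      push_cast
      rw [hk1] at b2
      have : ((k : ℝ) - 1) * Real.log (1 / c) ≤ k * Real.log (1 / c) := by nlinarith
      linarith
    have h2 : 2 * n2 + 1 < m + 1 := by exact_mod_cast h1
    omega

theorem res_mix {k d : ℕ} (hk : 3 ≤ k) (hd : 1 ≤ d) (hdk : d ≤ k) {g : Polynomial ℝ}
    (hg : g.natDegree < k) :
    ∀ᵐ t : Fin d → ℝ, ∀ (r m : ℕ) (c : ℝ), 0 < c → c < 1 →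
      2 * k * Real.log (1 / (1 - c)) + 5 ≤ (r : ℝ) → 2 * k * Real.log (1 / c) + 3 ≤ (m : ℝ) →
      ExactU k r m (fun x => (x : ℝ) ^ k + g.eval (x : ℝ) +
        ∑ i : Fin d, t i * (x : ℝ) ^ (k - 1 - (i : ℕ))) ∧
      ApproxU k r m (fun x => (x : ℝ) ^ k + g.eval (x : ℝ) +
        ∑ i : Fin d, t i * (x : ℝ) ^ (k - 1 - (i : ℕ))) := by
  have h1 : ∀ q1 q2 : ℕ, ∀ᵐ t : Fin d → ℝ, xb k q1 + xg k q2 ≤ ((k - 1 : ℕ) : ℝ) →
      ∀ A : ℕ, 1 ≤ A → MixL k A (fun x => (x : ℝ) ^ k + g.eval (x : ℝ) +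
        ∑ i : Fin d, t i * (x : ℝ) ^ (k - 1 - (i : ℕ))) (2 * (q1 + 1)) (2 * q2 + 1) := by
    intro q1 q2
    by_cases hq : xb k q1 + xg k q2 ≤ ((k - 1 : ℕ) : ℝ)
    · filter_upwards [mix_d hk hd hdk hq hg] with t ht _
      exact ht
    · exact Filter.Eventually.of_forall fun t h => absurd h hq
  have h2 : ∀ᵐ t : Fin d → ℝ, ∀ q1 q2 : ℕ, xb k q1 + xg k q2 ≤ ((k - 1 : ℕ) : ℝ) →
      ∀ A : ℕ, 1 ≤ A → MixL k A (fun x => (x : ℝ) ^ k + g.eval (x : ℝ) +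
        ∑ i : Fin d, t i * (x : ℝ) ^ (k - 1 - (i : ℕ))) (2 * (q1 + 1)) (2 * q2 + 1) := by
    rw [ae_all_iff]
    intro q1
    rw [ae_all_iff]
    exact h1 q1
  filter_upwards [h2] with t ht r m c hc hc1 hr hm
  obtain ⟨q1, q2, hq, hr', hm'⟩ := numT hk hc hc1 hr hm
  have h3 := ht q1 q2 hq
  exact ⟨exactU_mono hr' hm' (exact_of_mix (h3 1 le_rfl)),
    approxU_mono hr' hm' (approx_of_mix h3)⟩

end TWar
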