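import Pool.Agent.TWar.Avg
import Pool.Agent.MWg.LemA
import Pool.Agent.MWg.Chain
import Pool.Agent.MWg.GoodF
import Pool.Agent.MWg.Tools

/-!
# TWar.Words: words with plain letters and with letters of the polynomial

A word is `(u, (c, g))`: `u` and the chain `c` are plain letters (scales `P, nxt k P, ...`), the chain `g`
consists of letters of the polynomial `f0 + t x^(k-1)`, with the scales adapted to `x^(k-1)`:
`P/512, nxt (k-1) (P/512), ...`. `aeT`: for almost every `t` there are few near coincidences, if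
`k (1-1/k)^(q1+1) + (k-1) (1-1/(k-1))^q2 ≤ k - 1`.
-/

namespace TWar

open MWg FWar Finset MeasureTheory Filter Topology

/-- The plain chains. -/
noncomputable def CT (k q1 r : ℕ) : Finset (List (ℕ × ℕ)) := chain k J0 q1 (nxt k (XX r))

/-- The chains of letters of the polynomial. -/
noncomputable def GT (k q2 r : ℕ) : Finset (List (ℕ × ℕ)) := chain (k - 1) J0 q2 (XX r / 512)

/-- The words without the first letter. -/
noncomputable def WT (k q1 q2 r : ℕ) : Finset (List (ℕ × ℕ) × List (ℕ × ℕ)) :=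
  CT k q1 r ×ˢ GT k q2 r

/-- The words. -/
noncomputable def XT (k q1 q2 r : ℕ) : Finset (ℕ × (List (ℕ × ℕ) × List (ℕ × ℕ))) :=
  mainI (XX r) ×ˢ WT k q1 q2 r

/-- The part of the value of a word which does not depend on `t`. -/
noncomputable def aT (k : ℕ) (f0 : ℕ → ℝ) (w : ℕ × (List (ℕ × ℕ) × List (ℕ × ℕ))) : ℝ :=
  (w.1 : ℝ) ^ k + val (fun x => (x : ℝ) ^ k) (fun _ => 0) w.2.1 + val f0 (fun _ => 0) w.2.2

/-- The coefficient of `t` in the value of a word. -/
noncomputable def bT (k : ℕ) (w : ℕ × (List (ℕ × ℕ) × List (ℕ × ℕ))) : ℝ :=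
  val (fun x => (x : ℝ) ^ (k - 1)) (fun _ => 0) w.2.2

theorem cn_assoc {α β γ : Type*} (U : Finset α) (C : Finset β) (G : Finset γ)
    (R : α × (β × γ) → Prop) :
    cn (U ×ˢ (C ×ˢ G)) R ≤ cn ((U ×ˢ C) ×ˢ G) (fun p => R (p.1.1, (p.1.2, p.2))) := by
  classical
  unfold cn
  refine Nat.cast_le.2 (Finset.card_le_card_of_injOn (fun p => ((p.1, p.2.1), p.2.2)) ?_ ?_)
  · intro p hp
    rw [Finset.mem_coe, Finset.mem_filter, Finset.mem_product, Finset.mem_product] at hp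
    rw [Finset.mem_coe, Finset.mem_filter, Finset.mem_product, Finset.mem_product]
    exact ⟨⟨⟨hp.1.1, hp.1.2.1⟩, hp.1.2.2⟩, hp.2⟩
  · rintro ⟨u, c, g⟩ _ ⟨u', c', g'⟩ _ h
    simp only [Prod.mk.injEq] at h
    obtain ⟨⟨h1, h2⟩, h3⟩ := h
    rw [h1, h2, h3]

theorem card_UC (k q1 r : ℕ) : ((mainI (XX r) ×ˢ CT k q1 r).card : ℝ) = tot k J0 (q1 + 1) (XX r) := by
  rw [tot_succ, Finset.card_product]
  unfold CT tot
  have : (J0 (XX r)).card = 1 := by simp [J0]
  rw [this]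
  push_cast
  ring

theorem cn_UC_le (k q1 r : ℕ) (y x : ℝ) :
    cn (mainI (XX r) ×ˢ CT k q1 r) (fun p : ℕ × List (ℕ × ℕ) =>
      |(p.1 : ℝ) ^ k + val (fun x => (x : ℝ) ^ k) (fun _ => 0) p.2 - y| ≤ x) ≤
    cnt k J0 (q1 + 1) (XX r) (fun w => |val (fun x => (x : ℝ) ^ k) (fun _ => 0) w - y| ≤ x) := by
  classical
  unfold cn cnt
  refine Nat.cast_le.2 (Finset.card_le_card_of_injOn (fun p => (p.1, 0) :: p.2) ?_ ?_)
  · intro p hp
    rw [Finset.mem_coe, Finset.mem_filter, Finset.mem_product] at hp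
    rw [Finset.mem_coe, Finset.mem_filter]
    obtain ⟨⟨h1, h2⟩, h3⟩ := hp
    refine ⟨?_, ?_⟩
    · rw [mem_chain_succ]
      exact ⟨p.1, h1, 0, by simp [J0], p.2, h2, rfl⟩
    · rw [val_cons]
      simpa using h3
  · rintro ⟨u, c⟩ _ ⟨u', c'⟩ _ h
    simp only [List.cons.injEq, Prod.mk.injEq, and_true] at h
    rw [h.1, h.2]

end TWar
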